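import Pool.Agent.Run7.h574.LA.Main

/-!
# Two vertices with the same weight
-/

set_option autoImplicit false
set_option linter.unusedSectionVars false

namespace Run7.h574.LA

open Finset

/-! ### Two disjoint sets of small labels with the same sum -/

theorem exists_two_sets : ∀ r : ℕ, 2 ≤ r → ∃ U W : Finset ℤ, Disjoint U W ∧ U.card = r ∧
    W.card = r ∧ ∑ t ∈ U, t = ∑ t ∈ W, t ∧ (∀ t, 1 ≤ t → t ≤ 2 * (r : ℤ) - 1 → t ∈ U ∪ W) ∧
    (∀ t ∈ U ∪ W, 1 ≤ t ∧ t ≤ 2 * (r : ℤ) + 1) ∧
    2 * ∑ t ∈ U, t ≤ 2 * (r : ℤ) ^ 2 + r + 1 := by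
  intro r
  induction r using Nat.strong_induction_on with
  | _ r ih =>
    intro hr
    by_cases h2 : r = 2
    · subst h2
      refine ⟨{1, 4}, {2, 3}, by decide, by decide, by decide, by decide, ?_, by decide,
        by decide⟩
      intro t h1 h2
      have : t = 1 ∨ t = 2 ∨ t = 3 := by push_cast at h2; omega
      rcases this with rfl | rfl | rfl <;> decide
    by_cases h3 : r = 3
    · subst h3
      refine ⟨{1, 3, 7}, {2, 4, 5}, by decide, by decide, by decide, by decide, ?_, by decide,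
        by decide⟩
      intro t h1 h2
      have : t = 1 ∨ t = 2 ∨ t = 3 ∨ t = 4 ∨ t = 5 := by push_cast at h2; omega
      rcases this with rfl | rfl | rfl | rfl | rfl <;> decide
    obtain ⟨q, rfl⟩ : ∃ q, r = q + 2 := ⟨r - 2, by omega⟩
    obtain ⟨U, W, hd, hU, hW, hs, h1, h2', h3'⟩ := ih q (by omega) (by omega)
    have hinj : Function.Injective (fun t : ℤ => t + 4) := fun a b h => by
      simp only at h; omega
    have hsum : ∀ T : Finset ℤ, ∑ t ∈ T.image (fun t => t + 4), t = ∑ t ∈ T, t + 4 * T.card := by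
      intro T
      rw [sum_image hinj.injOn, sum_add_distrib, sum_const, nsmul_eq_mul]
      ring
    have hlow : ∀ T : Finset ℤ, T ⊆ U ∪ W → ∀ t ∈ T.image (fun t => t + 4), 5 ≤ t ∧
        t ≤ 2 * ((q : ℤ) + 2) + 1 := by
      intro T hT t ht
      obtain ⟨t', ht', rfl⟩ := mem_image.1 ht
      have := h2' t' (hT ht')
      constructor <;> omega
    have hUlow := hlow U subset_union_left
    have hWlow := hlow W subset_union_right
    have n1 : (1 : ℤ) ∉ insert 4 (U.image (fun t => t + 4)) := by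
      intro h
      rcases mem_insert.1 h with h | h
      · omega
      · have := hUlow _ h; omega
    have n4 : (4 : ℤ) ∉ U.image (fun t => t + 4) := by
      intro h
      have := hUlow _ h; omega
    have n2 : (2 : ℤ) ∉ insert 3 (W.image (fun t => t + 4)) := by
      intro h
      rcases mem_insert.1 h with h | h
      · omega
      · have := hWlow _ h; omega
    have n3 : (3 : ℤ) ∉ W.image (fun t => t + 4) := by
      intro h
      have := hWlow _ h; omega
    have e1 : ∑ t ∈ insert 1 (insert 4 (U.image (fun t => t + 4))), t =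
        5 + (∑ t ∈ U, t + 4 * (q : ℤ)) := by
      rw [sum_insert n1, sum_insert n4, hsum, hU]
      ring
    have e2 : ∑ t ∈ insert 2 (insert 3 (W.image (fun t => t + 4))), t =
        5 + (∑ t ∈ W, t + 4 * (q : ℤ)) := by
      rw [sum_insert n2, sum_insert n3, hsum, hW]
      ring
    refine ⟨insert 1 (insert 4 (U.image (fun t => t + 4))),
      insert 2 (insert 3 (W.image (fun t => t + 4))), ?_, ?_, ?_, ?_, ?_, ?_, ?_⟩
    · rw [disjoint_left]
      intro t ht ht'
      rw [mem_insert, mem_insert] at ht ht'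
      rcases ht with rfl | rfl | ht
      · rcases ht' with h | h | h
        · omega
        · omega
        · have := hWlow _ h; omega
      · rcases ht' with h | h | h
        · omega
        · omega
        · have := hWlow _ h; omega
      · have h5 := hUlow _ ht
        rcases ht' with h | h | h
        · omega
        · omega
        · obtain ⟨a, ha, rfl⟩ := mem_image.1 ht
          obtain ⟨b, hb, hab⟩ := mem_image.1 h
          have : b = a := by omega
          exact disjoint_left.1 hd ha (this ▸ hb)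
    · rw [card_insert_of_notMem n1, card_insert_of_notMem n4, card_image_of_injective _ hinj, hU]
    · rw [card_insert_of_notMem n2, card_insert_of_notMem n3, card_image_of_injective _ hinj, hW]
    · rw [e1, e2, hs]
    · intro t ht1 ht2
      push_cast at ht2
      rw [mem_union, mem_insert, mem_insert, mem_insert, mem_insert]
      by_cases h5 : t ≤ 4
      · have : t = 1 ∨ t = 2 ∨ t = 3 ∨ t = 4 := by omega
        rcases this with rfl | rfl | rfl | rfl <;> simp
      · have h6 := h1 (t - 4) (by omega) (by omega)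
        rcases mem_union.1 h6 with h6 | h6
        · left; right; right
          exact mem_image.2 ⟨_, h6, by ring⟩
        · right; right; right
          exact mem_image.2 ⟨_, h6, by ring⟩
    · intro t ht
      push_cast
      rw [mem_union, mem_insert, mem_insert, mem_insert, mem_insert] at ht
      rcases ht with (h | h | h) | (h | h | h)
      · omega
      · omega
      · have := hUlow _ h; omega
      · omega
      · omega
      · have := hWlow _ h; omega
    · rw [e1]
      push_cast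
      nlinarith

variable {V : Type*} [Fintype V] [DecidableEq V]

/-- one function which is a bijection from each of two sets of the same size to `I` -/
theorem exists_common_index (P Q : Finset V) (I : Finset ℤ) (hP : P.card = I.card)
    (hQ : Q.card = I.card) : ∃ i : V → ℤ, Set.BijOn i P I ∧ Set.BijOn i Q I := by
  have hc : (P ∩ Q).card ≤ I.card := hP ▸ card_le_card inter_subset_left
  obtain ⟨J, hJI, hJ⟩ := exists_subset_card_eq (s := I) (n := (P ∩ Q).card) hc
  obtain ⟨k0, hk0⟩ := exists_bijOn (P := P ∩ Q) (Z := J) hJ.symm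
  have hIJ : (I \ J).card = I.card - J.card := card_sdiff_of_subset hJI
  have hPQ : (P \ Q).card = (I \ J).card := by
    have := card_sdiff_add_card_inter P Q
    omega
  have hQP : (Q \ P).card = (I \ J).card := by
    have := card_sdiff_add_card_inter Q P
    rw [inter_comm] at this
    omega
  obtain ⟨k1, hk1⟩ := exists_bijOn (P := P \ Q) (Z := I \ J) hPQ
  obtain ⟨k2, hk2⟩ := exists_bijOn (P := Q \ P) (Z := I \ J) hQP
  have main : ∀ (P Q : Finset V) (k1 i : V → ℤ), Set.BijOn k0 (P ∩ Q : Finset V) J →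
      Set.BijOn k1 (P \ Q : Finset V) (I \ J : Finset ℤ) → (∀ v ∈ P ∩ Q, i v = k0 v) →
      (∀ v ∈ P \ Q, i v = k1 v) → Set.BijOn i P I := by
    intro P Q k1 i h0 h1 hi0 hi1
    refine ⟨?_, ?_, ?_⟩
    · intro v hv
      have hv' : v ∈ P := hv
      by_cases h : v ∈ Q
      · have h2 : v ∈ P ∩ Q := mem_inter.2 ⟨hv', h⟩
        rw [hi0 v h2]
        exact hJI (h0.mapsTo h2)
      · have h2 : v ∈ P \ Q := mem_sdiff.2 ⟨hv', h⟩
        rw [hi1 v h2]
        exact (mem_sdiff.1 (h1.mapsTo h2)).1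
    · intro a ha b hb hab
      have ha' : a ∈ P := ha
      have hb' : b ∈ P := hb
      by_cases hqa : a ∈ Q
      · have h2 : a ∈ P ∩ Q := mem_inter.2 ⟨ha', hqa⟩
        rw [hi0 a h2] at hab
        by_cases hqb : b ∈ Q
        · have h3 : b ∈ P ∩ Q := mem_inter.2 ⟨hb', hqb⟩
          rw [hi0 b h3] at hab
          exact h0.injOn h2 h3 hab
        · have h3 : b ∈ P \ Q := mem_sdiff.2 ⟨hb', hqb⟩
          rw [hi1 b h3] at hab
          have h4 := (mem_sdiff.1 (h1.mapsTo h3)).2
          rw [← hab] at h4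
          exact absurd (h0.mapsTo h2) h4
      · have h2 : a ∈ P \ Q := mem_sdiff.2 ⟨ha', hqa⟩
        rw [hi1 a h2] at hab
        by_cases hqb : b ∈ Q
        · have h3 : b ∈ P ∩ Q := mem_inter.2 ⟨hb', hqb⟩
          rw [hi0 b h3] at hab
          have h4 := (mem_sdiff.1 (h1.mapsTo h2)).2
          rw [hab] at h4
          exact absurd (h0.mapsTo h3) h4
        · have h3 : b ∈ P \ Q := mem_sdiff.2 ⟨hb', hqb⟩
          rw [hi1 b h3] at hab
          exact h1.injOn h2 h3 hab
    · intro t ht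
      by_cases h : t ∈ J
      · obtain ⟨v, hv, hvt⟩ := h0.surjOn h
        refine ⟨v, (mem_inter.1 hv).1, ?_⟩
        rw [hi0 v hv, hvt]
      · have ht' : t ∈ I \ J := mem_sdiff.2 ⟨ht, h⟩
        obtain ⟨v, hv, hvt⟩ := h1.surjOn ht'
        refine ⟨v, (mem_sdiff.1 hv).1, ?_⟩
        rw [hi1 v hv, hvt]
  refine ⟨fun v => if v ∈ P ∩ Q then k0 v else if v ∈ P then k1 v else k2 v, ?_, ?_⟩
  · refine main P Q k1 _ hk0 hk1 ?_ ?_
    · intro v hv
      rw [if_pos hv]
    · intro v hv
      obtain ⟨h1, h2⟩ := mem_sdiff.1 hv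
      rw [if_neg (fun h => h2 (mem_inter.1 h).2), if_pos h1]
  · refine main Q P k2 _ (by rwa [inter_comm]) hk2 ?_ ?_
    · intro v hv
      rw [inter_comm] at hv
      rw [if_pos hv]
    · intro v hv
      obtain ⟨h1, h2⟩ := mem_sdiff.1 hv
      rw [if_neg (fun h => h2 (mem_inter.1 h).1), if_neg h2]

theorem good_of_inj {E : Finset (Sym2 V)} (hE : NoLoop E) {p : V → ℤ}
    (h : ∀ a b, (nb E a).card = 1 → (nb E b).card = 1 → p a = p b → a = b) : Good E p := by
  intro s hs
  obtain ⟨u, hu⟩ := hs.1.1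
  have hu1 := hs.1.2 u hu
  have hs1 : (nb E s).card = 1 := by
    rw [card_eq_one]
    refine ⟨u, ?_⟩
    ext t
    rw [mem_singleton]
    constructor
    · intro ht
      exact h t u (hs.1.2 t ht) hu1 (hs.2.1 t ht u hu)
    · rintro rfl
      exact hu
  have h1 := h u s hu1 hs1 (hs.2.2 hs1 u hu)
  exact hE s (mem_nb.1 (h1 ▸ hu))

/-- the initial weights given by the labels at `u` and `v` -/
def pp (E : Finset (Sym2 V)) (u v : V) (α β : V → ℤ) : V → ℤ :=
  fun y => (if y ∈ nb E u then α y else 0) + (if y ∈ nb E v then β y else 0)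

/-- the edges which are not at `u` or `v` -/
def ee (E : Finset (Sym2 V)) (u v : V) : Finset (Sym2 V) :=
  E \ (star u (nb E u) ∪ star v (nb E v))

theorem nb_ee_left {E : Finset (Sym2 V)} {u v : V} : nb (ee E u v) u = ∅ := by
  rw [eq_empty_iff_forall_notMem]
  intro t ht
  rw [mem_nb, ee, mem_sdiff] at ht
  exact ht.2 (mem_union_left _ (mem_star.2 (Or.inl ⟨rfl, mem_nb.2 ht.1⟩)))

theorem nb_ee_right {E : Finset (Sym2 V)} {u v : V} : nb (ee E u v) v = ∅ := by
  rw [eq_empty_iff_forall_notMem]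
  intro t ht
  rw [mem_nb, ee, mem_sdiff] at ht
  exact ht.2 (mem_union_right _ (mem_star.2 (Or.inl ⟨rfl, mem_nb.2 ht.1⟩)))

theorem nb_ee {E : Finset (Sym2 V)} {u v y : V} (h1 : y ≠ u) (h2 : y ≠ v) :
    nb (ee E u v) y = ((nb E y).erase u).erase v := by
  ext t
  rw [mem_nb, ee, mem_sdiff, mem_union, mem_star, mem_star, mem_erase, mem_erase, mem_nb]
  constructor
  · rintro ⟨h3, h4⟩
    refine ⟨?_, ?_, mem_nb.2 h3⟩
    · rintro rfl
      exact h4 (Or.inr (Or.inr ⟨rfl, mem_nb_comm.1 (mem_nb.2 h3)⟩))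
    · rintro rfl
      exact h4 (Or.inl (Or.inr ⟨rfl, mem_nb_comm.1 (mem_nb.2 h3)⟩))
  · rintro ⟨h3, h4, h5⟩
    refine ⟨mem_nb.1 h5, ?_⟩
    rintro ((h | h) | (h | h))
    · exact h1 h.1
    · exact h4 h.1
    · exact h2 h.1
    · exact h3 h.1

theorem card_nb_ee {E : Finset (Sym2 V)} {u v y : V} (huv : u ≠ v) (h1 : y ≠ u) (h2 : y ≠ v) :
    (nb (ee E u v) y).card + (if y ∈ nb E u then 1 else 0) + (if y ∈ nb E v then 1 else 0) =
      (nb E y).card := by
  rw [nb_ee h1 h2]
  by_cases h3 : y ∈ nb E u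
  · have h3' : u ∈ nb E y := mem_nb_comm.1 h3
    have hpos : 0 < (nb E y).card := card_pos.2 ⟨u, h3'⟩
    by_cases h4 : y ∈ nb E v
    · have h4' : v ∈ (nb E y).erase u := mem_erase.2 ⟨huv.symm, mem_nb_comm.1 h4⟩
      have hpos' : 0 < ((nb E y).erase u).card := card_pos.2 ⟨v, h4'⟩
      rw [if_pos h3, if_pos h4, card_erase_of_mem h4']
      rw [card_erase_of_mem h3'] at hpos' ⊢
      omega
    · have h4' : v ∉ (nb E y).erase u := fun h =>
        h4 (mem_nb_comm.1 (mem_of_mem_erase h))
      rw [if_pos h3, if_neg h4, erase_eq_of_notMem h4', card_erase_of_mem h3']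
      omega
  · have h3' : u ∉ nb E y := fun h => h3 (mem_nb_comm.1 h)
    by_cases h4 : y ∈ nb E v
    · have h4' : v ∈ nb E y := mem_nb_comm.1 h4
      have hpos' : 0 < (nb E y).card := card_pos.2 ⟨v, h4'⟩
      rw [if_neg h3, if_pos h4, erase_eq_of_notMem h3', card_erase_of_mem h4']
      omega
    · have h4' : v ∉ nb E y := fun h => h4 (mem_nb_comm.1 h)
      rw [if_neg h3, if_neg h4, erase_eq_of_notMem h3', erase_eq_of_notMem h4']
      omega

theorem two_equal_core {E : Finset (Sym2 V)} (hE : NoLoop E) {u v : V} (huv : u ≠ v)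
    (hna : v ∉ nb E u) {U W : Finset ℤ} {α β : V → ℤ} (hα : Set.BijOn α (nb E u) U)
    (hβ : Set.BijOn β (nb E v) W) (hUW : Disjoint U W) {A : Finset ℤ} (hUA : U ∪ W ⊆ A)
    (hA : E.card ≤ A.card) (hs : ∑ t ∈ U, t = ∑ t ∈ W, t)
    (hinj : ∀ a b, (nb (ee E u v) a).card = 1 → (nb (ee E u v) b).card = 1 →
      pp E u v α β a = pp E u v α β b → a = b)
    (L : ℤ) (hL : ∀ t ∈ A \ (U ∪ W), L ≤ t)
    (hw : ∀ y, (y ∈ nb E u ∨ y ∈ nb E v) → ∀ T : ℤ, (nb (ee E u v) y).card * L ≤ T →
      ((nb (ee E u v) y).card = 0 → T = 0) → pp E u v α β y + T ≠ ∑ t ∈ U, t) :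
    ∃ F : Sym2 V → ℤ, Set.InjOn F E ∧ (∀ e ∈ E, F e ∈ A) ∧
      (∀ a b, s(a, b) ∈ E → wt F E (fun _ => 0) a ≠ wt F E (fun _ => 0) b) ∧
      wt F E (fun _ => 0) u = wt F E (fun _ => 0) v := by
  have hnb : u ∉ nb E v := fun h => hna (mem_nb_comm.1 h)
  have huu : u ∉ nb E u := fun h => hE u (mem_nb.1 h)
  have hvv : v ∉ nb E v := fun h => hE v (mem_nb.1 h)
  obtain ⟨D1, hD1⟩ : ∃ D1, D1 = star u (nb E u) := ⟨_, rfl⟩
  obtain ⟨D2, hD2⟩ : ∃ D2, D2 = star v (nb E v) := ⟨_, rfl⟩
  obtain ⟨E', hE'⟩ : ∃ E', E' = ee E u v := ⟨_, rfl⟩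
  obtain ⟨p', hp'⟩ : ∃ p', p' = pp E u v α β := ⟨_, rfl⟩
  rw [← hE', ← hp'] at hinj
  rw [← hE', ← hp'] at hw
  have hEE : E' = E \ (D1 ∪ D2) := by rw [hE', ee, hD1, hD2]
  have hd12 : Disjoint D1 D2 := by
    rw [disjoint_left]
    intro e he he'
    induction e using Sym2.ind with
    | _ a b =>
      rw [hD1, mem_star] at he
      rw [hD2, mem_star] at he'
      rcases he with ⟨rfl, h⟩ | ⟨rfl, h⟩ <;> rcases he' with ⟨h1, h2⟩ | ⟨h1, h2⟩
      · exact huv h1
      · exact hna (h1 ▸ h)
      · exact hna (h1 ▸ h)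
      · exact huv h1
  have hDE : D1 ∪ D2 ⊆ E := union_subset (hD1 ▸ star_subset (Subset.refl _))
    (hD2 ▸ star_subset (Subset.refl _))
  have hDd : (D1 ∪ D2) \ D2 = D1 := by
    rw [union_sdiff_right, sdiff_eq_self_of_disjoint hd12]
  have hUc : (nb E u).card = U.card := by
    have := card_image_of_injOn hα.injOn
    rw [← this]
    congr 1
    rw [← coe_inj, coe_image, hα.image_eq]
  have hWc : (nb E v).card = W.card := by
    have := card_image_of_injOn hβ.injOn
    rw [← this]
    congr 1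
    rw [← coe_inj, coe_image, hβ.image_eq]
  have hDcard : (D1 ∪ D2).card = (U ∪ W).card := by
    rw [card_union_of_disjoint hd12, hD1, hD2, star_card, star_card,
      card_union_of_disjoint hUW, hUc, hWc]
  obtain ⟨g, hgdef⟩ : ∃ g, g = pw D2 (sg v β) (sg u α) := ⟨_, rfl⟩
  have hginj : Set.InjOn g (D1 ∪ D2 : Finset (Sym2 V)) := by
    rw [hgdef]
    refine pw_injOn (E := D1 ∪ D2) (by rw [hD2]; exact sg_injOn hβ.injOn)
      (by rw [hDd, hD1]; exact sg_injOn hα.injOn) ?_
    intro e he e' he'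
    rw [hDd, hD1] at he
    rw [hD2] at he'
    obtain ⟨a, ha, rfl⟩ := mem_image.1 he
    obtain ⟨b, hb, rfl⟩ := mem_image.1 he'
    simp only [sg_apply]
    intro h
    exact disjoint_left.1 hUW (hα.mapsTo ha) (h ▸ hβ.mapsTo hb)
  have hgR : ∀ e ∈ D1 ∪ D2, g e ∈ U ∪ W := by
    rw [hgdef]
    refine pw_mem (E := D1 ∪ D2) ?_ ?_
    · intro e he
      rw [hD2] at he
      obtain ⟨b, hb, rfl⟩ := mem_image.1 he
      simp only [sg_apply]
      exact mem_union_right _ (hβ.mapsTo hb)
    · intro e he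
      rw [hDd, hD1] at he
      obtain ⟨a, ha, rfl⟩ := mem_image.1 he
      simp only [sg_apply]
      exact mem_union_left _ (hα.mapsTo ha)
  have hE'n : NoLoop E' := fun v hv => hE v (mem_sdiff.1 (hEE ▸ hv)).1
  obtain ⟨f, hf1, hf2, hf3⟩ := main_lemma E' p' (A \ (U ∪ W)) hE'n (good_of_inj hE'n hinj) (by
    have h1 : E'.card = E.card - (D1 ∪ D2).card := by rw [hEE]; exact card_sdiff_of_subset hDE
    have h2 : (A \ (U ∪ W)).card = A.card - (U ∪ W).card := card_sdiff_of_subset hUA
    omega)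
  rw [hEE] at hf1 hf2 hf3
  have hfne : ∀ e ∈ E \ (D1 ∪ D2), ∀ e' ∈ D1 ∪ D2, f e ≠ g e' := by
    intro e he e' he' h
    exact (mem_sdiff.1 (hf2 e he)).2 (h ▸ hgR e' he')
  have hW : ∀ y, wt (pw (D1 ∪ D2) g f) E (fun _ => 0) y =
      wt (sg v β) (star v (nb E v)) (fun _ => 0) y +
      ∑ t ∈ nb (star u (nb E u)) y, sg u α s(y, t) + ∑ t ∈ nb E' y, f s(y, t) := by
    intro y
    rw [wt_pw hDE, hgdef, wt_pw subset_union_right, hDd, ← hD1, ← hD2, ← hEE]
  have hWu : wt (pw (D1 ∪ D2) g f) E (fun _ => 0) u = ∑ t ∈ U, t := by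
    rw [hW, wt_star_other huv hnb, nb_star_self huu, hE', nb_ee_left, sum_empty]
    simp only [sg_apply]
    rw [sum_bijOn hα]
    ring
  have hWv : wt (pw (D1 ∪ D2) g f) E (fun _ => 0) v = ∑ t ∈ W, t := by
    rw [hW, wt_star_self hvv, nb_star_other huv.symm hna, hE', nb_ee_right, sum_empty, sum_empty]
    simp only [sg_apply]
    rw [sum_bijOn hβ]
    ring
  have hWo : ∀ y, y ≠ u → y ≠ v → wt (pw (D1 ∪ D2) g f) E (fun _ => 0) y =
      p' y + ∑ t ∈ nb E' y, f s(y, t) := by
    intro y hyu hyv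
    rw [hW, hp']
    unfold pp
    by_cases h1 : y ∈ nb E u
    · rw [nb_star_mem huu h1, sum_singleton, Sym2.eq_swap, sg_apply, if_pos h1]
      by_cases h2 : y ∈ nb E v
      · rw [wt_star_mem hvv h2, sg_apply, if_pos h2]
        ring
      · rw [wt_star_other hyv h2, if_neg h2]
        ring
    · rw [nb_star_other hyu h1, sum_empty, if_neg h1]
      by_cases h2 : y ∈ nb E v
      · rw [wt_star_mem hvv h2, sg_apply, if_pos h2]
        ring
      · rw [wt_star_other hyv h2, if_neg h2]
  have hkey : ∀ y, (y ∈ nb E u ∨ y ∈ nb E v) →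
      wt (pw (D1 ∪ D2) g f) E (fun _ => 0) y ≠ ∑ t ∈ U, t := by
    intro y hy
    have hyu : y ≠ u := by
      rintro rfl
      rcases hy with h | h
      · exact huu h
      · exact hnb h
    have hyv : y ≠ v := by
      rintro rfl
      rcases hy with h | h
      · exact hna h
      · exact hvv h
    rw [hWo y hyu hyv]
    refine hw y hy _ ?_ ?_
    · have h1 : ∀ t ∈ nb E' y, L ≤ f s(y, t) := by
        intro t ht
        rw [mem_nb, hEE] at ht
        exact hL _ (hf2 _ ht)
      have h2 := card_nsmul_le_sum _ _ _ h1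
      rwa [nsmul_eq_mul] at h2
    · intro h
      rw [card_eq_zero] at h
      rw [h, sum_empty]
  refine ⟨pw (D1 ∪ D2) g f, pw_injOn hginj hf1 hfne, ?_, ?_, ?_⟩
  · exact pw_mem (fun e he => hUA (hgR e he)) (fun e he => (mem_sdiff.1 (hf2 e he)).1)
  · intro a b hab
    by_cases h : s(a, b) ∈ D1 ∪ D2
    · rw [mem_union, hD1, hD2, mem_star, mem_star] at h
      rcases h with (⟨rfl, h⟩ | ⟨rfl, h⟩) | (⟨rfl, h⟩ | ⟨rfl, h⟩)
      · rw [hWu]; exact (hkey b (Or.inl h)).symm
      · rw [hWu]; exact hkey a (Or.inl h)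
      · rw [hWv, ← hs]; exact (hkey b (Or.inr h)).symm
      · rw [hWv, ← hs]; exact hkey a (Or.inr h)
    · have hab' : s(a, b) ∈ E \ (D1 ∪ D2) := mem_sdiff.2 ⟨hab, h⟩
      have h1 : b ∈ nb E' a := by rw [mem_nb, hEE]; exact hab'
      have h2 : a ∈ nb E' b := mem_nb_comm.1 h1
      have ne1 : ∀ y, (nb E' y).Nonempty → y ≠ u ∧ y ≠ v := by
        intro y hy
        constructor
        · rintro rfl
          rw [hE', nb_ee_left] at hy
          exact not_nonempty_empty hy
        · rintro rfl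
          rw [hE', nb_ee_right] at hy
          exact not_nonempty_empty hy
      obtain ⟨h3, h4⟩ := ne1 a ⟨b, h1⟩
      obtain ⟨h5, h6⟩ := ne1 b ⟨a, h2⟩
      rw [hWo a h3 h4, hWo b h5 h6]
      have h7 := hf3 a b hab'
      rw [← hEE] at h7
      exact h7
  · rw [hWu, hWv, hs]

theorem bijOn_concrete {a : ℤ → ℤ} {I U : Finset ℤ} (h1 : ∀ x ∈ I, a x ∈ U)
    (h2 : ∀ x ∈ I, ∀ y ∈ I, a x = a y → x = y) (h3 : ∀ t ∈ U, ∃ x ∈ I, a x = t) :
    Set.BijOn a I U :=
  ⟨fun x hx => h1 x hx, fun x hx y hy h => h2 x hx y hy h, fun t ht => h3 t ht⟩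

theorem ne_of_card_ee {E : Finset (Sym2 V)} {u v y : V} (h : (nb (ee E u v) y).card = 1) :
    y ≠ u ∧ y ≠ v := by
  constructor
  · rintro rfl
    rw [nb_ee_left] at h
    simp at h
  · rintro rfl
    rw [nb_ee_right] at h
    simp at h

/-- In a regular graph any two nonadjacent vertices have the same weight in some local antimagic
labelling. -/
theorem two_equal {E : Finset (Sym2 V)} (hE : NoLoop E) {r : ℕ} (hr : 2 ≤ r)
    (hreg : ∀ y, (nb E y).card = r) {u v : V} (huv : u ≠ v) (hna : v ∉ nb E u)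
    (hm2 : 4 ≤ E.card) (hm : 3 ≤ r → 2 * r + 1 ≤ E.card) :
    ∃ F : Sym2 V → ℤ, Set.InjOn F E ∧ (∀ e ∈ E, F e ∈ Icc (1 : ℤ) E.card) ∧
      (∀ a b, s(a, b) ∈ E → wt F E (fun _ => 0) a ≠ wt F E (fun _ => 0) b) ∧
      wt F E (fun _ => 0) u = wt F E (fun _ => 0) v := by
  have hnb : u ∉ nb E v := fun h => hna (mem_nb_comm.1 h)
  have huu : u ∉ nb E u := fun h => hE u (mem_nb.1 h)
  have hvv : v ∉ nb E v := fun h => hE v (mem_nb.1 h)
  have hAc : E.card ≤ (Icc (1 : ℤ) E.card).card := by
    rw [Int.card_Icc]; omega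
  have hyuv : ∀ y, (y ∈ nb E u ∨ y ∈ nb E v) → y ≠ u ∧ y ≠ v := by
    intro y hy
    constructor
    · rintro rfl
      rcases hy with h | h
      · exact huu h
      · exact hnb h
    · rintro rfl
      rcases hy with h | h
      · exact hna h
      · exact hvv h
  by_cases h2 : r = 2
  · subst h2
    obtain ⟨i, hiu, hiv⟩ := exists_common_index (nb E u) (nb E v) {0, 1} (by rw [hreg]; rfl)
      (by rw [hreg]; rfl)
    have ha : Set.BijOn (fun t : ℤ => if t = 0 then (4 : ℤ) else 1) ({0, 1} : Finset ℤ)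
      ({4, 1} : Finset ℤ) := bijOn_concrete (by decide) (by decide) (by decide)
    have hb : Set.BijOn (fun t : ℤ => if t = 0 then (3 : ℤ) else 2) ({0, 1} : Finset ℤ)
      ({3, 2} : Finset ℤ) := bijOn_concrete (by decide) (by decide) (by decide)
    have hα := ha.comp hiu
    have hβ := hb.comp hiv
    refine two_equal_core hE huv hna hα hβ (by decide) ?_ hAc (by decide) ?_ 5 ?_ ?_
    · intro t ht
      rw [mem_Icc]
      have h5 : ∀ t ∈ ({4, 1} ∪ {3, 2} : Finset ℤ), 1 ≤ t ∧ t ≤ 4 := by decide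
      have := h5 t ht
      omega
    · intro a b h1 h1' hab
      obtain ⟨hau, hav⟩ := ne_of_card_ee h1
      obtain ⟨hbu, hbv⟩ := ne_of_card_ee h1'
      have c1 := card_nb_ee (E := E) huv hau hav
      have c2 := card_nb_ee (E := E) huv hbu hbv
      rw [h1, hreg] at c1
      rw [h1', hreg] at c2
      unfold pp at hab
      by_cases a1 : a ∈ nb E u <;> by_cases a2 : a ∈ nb E v <;>
        by_cases b1 : b ∈ nb E u <;> by_cases b2 : b ∈ nb E v <;>
        simp only [a1, a2, b1, b2, if_true, if_false, add_zero, zero_add] at c1 c2 hab <;>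
        first
        | omega
        | skip
      · exact hα.injOn a1 b1 hab
      · exfalso
        have h3 := hα.mapsTo (mem_coe.2 a1)
        rw [hab] at h3
        have h4 := hβ.mapsTo (mem_coe.2 b2)
        exact disjoint_left.1 (by decide : Disjoint ({4, 1} : Finset ℤ) {3, 2}) h3 h4
      · exfalso
        have h3 := hβ.mapsTo (mem_coe.2 a2)
        rw [hab] at h3
        have h4 := hα.mapsTo (mem_coe.2 b1)
        exact disjoint_left.1 (by decide : Disjoint ({4, 1} : Finset ℤ) {3, 2}) h4 h3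
      · exact hβ.injOn a2 b2 hab
    · intro t ht
      rw [mem_sdiff, mem_Icc] at ht
      obtain ⟨⟨h3, -⟩, h4⟩ := ht
      have : t ≠ 4 ∧ t ≠ 1 ∧ t ≠ 3 ∧ t ≠ 2 := by
        refine ⟨?_, ?_, ?_, ?_⟩ <;> (rintro rfl; exact h4 (by decide))
      omega
    · intro y hy T hT hT0
      have hsum : ∑ t ∈ ({4, 1} : Finset ℤ), t = 5 := by decide
      rw [hsum]
      obtain ⟨hyu, hyv⟩ := hyuv y hy
      have c1 := card_nb_ee (E := E) huv hyu hyv
      rw [hreg] at c1
      obtain ⟨k, hk⟩ : ∃ k, k = (nb (ee E u v) y).card := ⟨_, rfl⟩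
      rw [← hk] at c1 hT hT0
      unfold pp
      by_cases y1 : y ∈ nb E u
      · by_cases y2 : y ∈ nb E v
        · rw [if_pos y1, if_pos y2] at c1 ⊢
          have hk0 : k = 0 := by omega
          rw [hT0 hk0]
          simp only [Function.comp_apply]
          by_cases h0 : i y = 0
          · rw [if_pos h0, if_pos h0]; decide
          · rw [if_neg h0, if_neg h0]; decide
        · rw [if_pos y1, if_neg y2] at c1 ⊢
          have hk0 : k = 1 := by omega
          rw [hk0] at hT
          simp only [Function.comp_apply]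
          push_cast at hT
          by_cases h0 : i y = 0
          · rw [if_pos h0]; omega
          · rw [if_neg h0]; omega
      · by_cases y2 : y ∈ nb E v
        · rw [if_neg y1, if_pos y2] at c1 ⊢
          have hk0 : k = 1 := by omega
          rw [hk0] at hT
          simp only [Function.comp_apply]
          push_cast at hT
          by_cases h0 : i y = 0
          · rw [if_pos h0]; omega
          · rw [if_neg h0]; omega
        · exact absurd hy (by tauto)
  by_cases h3 : r = 3
  · subst h3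
    obtain ⟨i, hiu, hiv⟩ := exists_common_index (nb E u) (nb E v) {0, 1, 2} (by rw [hreg]; rfl)
      (by rw [hreg]; rfl)
    have ha : Set.BijOn (fun t : ℤ => if t = 0 then (7 : ℤ) else if t = 1 then 3 else 1)
      ({0, 1, 2} : Finset ℤ)
      ({7, 3, 1} : Finset ℤ) := bijOn_concrete (by decide) (by decide) (by decide)
    have hb : Set.BijOn (fun t : ℤ => if t = 0 then (2 : ℤ) else if t = 1 then 4 else 5)
      ({0, 1, 2} : Finset ℤ)
      ({2, 4, 5} : Finset ℤ) := bijOn_concrete (by decide) (by decide) (by decide)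
    have hα := ha.comp hiu
    have hβ := hb.comp hiv
    have hm3 := hm (by norm_num)
    refine two_equal_core hE huv hna hα hβ (by decide) ?_ hAc (by decide) ?_ 6 ?_ ?_
    · intro t ht
      rw [mem_Icc]
      have h5 : ∀ t ∈ ({7, 3, 1} ∪ {2, 4, 5} : Finset ℤ), 1 ≤ t ∧ t ≤ 7 := by decide
      have := h5 t ht
      omega
    · intro a b h1 h1' hab
      obtain ⟨hau, hav⟩ := ne_of_card_ee h1
      obtain ⟨hbu, hbv⟩ := ne_of_card_ee h1'
      have c1 := card_nb_ee (E := E) huv hau hav
      have c2 := card_nb_ee (E := E) huv hbu hbv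
      rw [h1, hreg] at c1
      rw [h1', hreg] at c2
      have a1 : a ∈ nb E u := by
        by_contra h
        rw [if_neg h] at c1
        split_ifs at c1 <;> omega
      have a2 : a ∈ nb E v := by
        by_contra h
        rw [if_neg h] at c1
        split_ifs at c1 <;> omega
      have b1 : b ∈ nb E u := by
        by_contra h
        rw [if_neg h] at c2
        split_ifs at c2 <;> omega
      have b2 : b ∈ nb E v := by
        by_contra h
        rw [if_neg h] at c2
        split_ifs at c2 <;> omega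
      unfold pp at hab
      rw [if_pos a1, if_pos a2, if_pos b1, if_pos b2] at hab
      simp only [Function.comp_apply] at hab
      apply hiu.injOn (mem_coe.2 a1) (mem_coe.2 b1)
      have ia : i a = 0 ∨ i a = 1 ∨ i a = 2 := by
        simpa using hiu.mapsTo (mem_coe.2 a1)
      have ib : i b = 0 ∨ i b = 1 ∨ i b = 2 := by
        simpa using hiu.mapsTo (mem_coe.2 b1)
      rcases ia with h | h | h <;> rcases ib with h' | h' | h' <;> rw [h, h'] at hab ⊢ <;>
        exact absurd hab (by decide)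
    · intro t ht
      rw [mem_sdiff, mem_Icc] at ht
      obtain ⟨⟨h3, -⟩, h4⟩ := ht
      have : t ≠ 1 ∧ t ≠ 2 ∧ t ≠ 3 ∧ t ≠ 4 ∧ t ≠ 5 := by
        refine ⟨?_, ?_, ?_, ?_, ?_⟩ <;> (rintro rfl; exact h4 (by decide))
      omega
    · intro y hy T hT hT0
      have hsum : ∑ t ∈ ({7, 3, 1} : Finset ℤ), t = 11 := by decide
      rw [hsum]
      obtain ⟨hyu, hyv⟩ := hyuv y hy
      have c1 := card_nb_ee (E := E) huv hyu hyv
      rw [hreg] at c1
      obtain ⟨k, hk⟩ : ∃ k, k = (nb (ee E u v) y).card := ⟨_, rfl⟩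
      rw [← hk] at c1 hT hT0
      unfold pp
      by_cases y1 : y ∈ nb E u
      · have iy : i y = 0 ∨ i y = 1 ∨ i y = 2 := by
          simpa using hiu.mapsTo (mem_coe.2 y1)
        by_cases y2 : y ∈ nb E v
        · rw [if_pos y1, if_pos y2] at c1 ⊢
          have hk0 : k = 1 := by omega
          rw [hk0] at hT
          simp only [Function.comp_apply]
          push_cast at hT
          rcases iy with h | h | h <;> rw [h] <;> norm_num <;> omega
        · rw [if_pos y1, if_neg y2] at c1 ⊢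
          have hk0 : k = 2 := by omega
          rw [hk0] at hT
          simp only [Function.comp_apply]
          push_cast at hT
          rcases iy with h | h | h <;> rw [h] <;> norm_num <;> omega
      · by_cases y2 : y ∈ nb E v
        · have iy : i y = 0 ∨ i y = 1 ∨ i y = 2 := by
            simpa using hiv.mapsTo (mem_coe.2 y2)
          rw [if_neg y1, if_pos y2] at c1 ⊢
          have hk0 : k = 2 := by omega
          rw [hk0] at hT
          simp only [Function.comp_apply]
          push_cast at hT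
          rcases iy with h | h | h <;> rw [h] <;> norm_num <;> omega
        · exact absurd hy (by tauto)
  · obtain ⟨U, W, hUW, hU, hW, hs, hlow, hrange, hsum⟩ := exists_two_sets r hr
    obtain ⟨α, hα⟩ := exists_bijOn (P := nb E u) (Z := U) (by rw [hreg, hU])
    obtain ⟨β, hβ⟩ := exists_bijOn (P := nb E v) (Z := W) (by rw [hreg, hW])
    have hr4 : 4 ≤ r := by omega
    have hr4' : (4 : ℤ) ≤ r := by exact_mod_cast hr4
    have hm3 := hm (by omega)
    refine two_equal_core hE huv hna hα hβ hUW ?_ hAc hs ?_ (2 * (r : ℤ)) ?_ ?_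
    · intro t ht
      rw [mem_Icc]
      have := hrange t ht
      omega
    · intro a b h1 _ _
      obtain ⟨hau, hav⟩ := ne_of_card_ee h1
      have c1 := card_nb_ee (E := E) huv hau hav
      rw [h1, hreg] at c1
      exfalso
      split_ifs at c1 <;> omega
    · intro t ht
      rw [mem_sdiff, mem_Icc] at ht
      obtain ⟨⟨h4, -⟩, h5⟩ := ht
      by_contra hlt
      exact h5 (hlow t h4 (by omega))
    · intro y hy T hT hT0
      obtain ⟨hyu, hyv⟩ := hyuv y hy
      have c1 := card_nb_ee (E := E) huv hyu hyv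
      rw [hreg] at c1
      obtain ⟨k, hk⟩ : ∃ k, k = (nb (ee E u v) y).card := ⟨_, rfl⟩
      rw [← hk] at c1 hT hT0
      unfold pp
      by_cases y1 : y ∈ nb E u
      · have m1 : α y ∈ U := hα.mapsTo (mem_coe.2 y1)
        have r1 := hrange _ (mem_union_left W m1)
        by_cases y2 : y ∈ nb E v
        · have m2 : β y ∈ W := hβ.mapsTo (mem_coe.2 y2)
          have r2 := hrange _ (mem_union_right U m2)
          have hne : α y ≠ β y := fun h => disjoint_left.1 hUW m1 (h ▸ m2)
          rw [if_pos y1, if_pos y2] at c1 ⊢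
          have hk0 : (k : ℤ) = r - 2 := by omega
          rw [hk0] at hT
          have h3 : 3 ≤ α y + β y := by omega
          apply ne_of_gt
          nlinarith
        · rw [if_pos y1, if_neg y2] at c1 ⊢
          have hk0 : (k : ℤ) = r - 1 := by omega
          rw [hk0] at hT
          apply ne_of_gt
          nlinarith
      · by_cases y2 : y ∈ nb E v
        · have m2 : β y ∈ W := hβ.mapsTo (mem_coe.2 y2)
          have r2 := hrange _ (mem_union_right U m2)
          rw [if_neg y1, if_pos y2] at c1 ⊢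
          have hk0 : (k : ℤ) = r - 1 := by omega
          rw [hk0] at hT
          apply ne_of_gt
          nlinarith
        · exact absurd hy (by tauto)

end Run7.h574.LA
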