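import Pool.Agent.Run7.h574.LA.Num

/-!
# Edge sets, weights and stars
-/

set_option autoImplicit false
set_option linter.unusedSectionVars false

namespace Run7.h574.LA

open Finset

variable {V : Type*} [Fintype V] [DecidableEq V]

/-- the neighbours of `v` in the edge set `E` -/
def nb (E : Finset (Sym2 V)) (v : V) : Finset V := Finset.univ.filter (fun u => s(v, u) ∈ E)

theorem mem_nb {E : Finset (Sym2 V)} {v u : V} : u ∈ nb E v ↔ s(v, u) ∈ E := by simp [nb]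

theorem mem_nb_comm {E : Finset (Sym2 V)} {v u : V} : u ∈ nb E v ↔ v ∈ nb E u := by
  rw [mem_nb, mem_nb, Sym2.eq_swap]

/-- the weight of `v` -/
def wt (f : Sym2 V → ℤ) (E : Finset (Sym2 V)) (p : V → ℤ) (v : V) : ℤ :=
  p v + ∑ u ∈ nb E v, f s(v, u)

/-- there are no loops -/
def NoLoop (E : Finset (Sym2 V)) : Prop := ∀ v, s(v, v) ∉ E

/-- a labelling of the edges in `E` by distinct elements of `A` such that adjacent vertices have
different weights, where `p` gives initial weights -/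
def Sol (E : Finset (Sym2 V)) (p : V → ℤ) (A : Finset ℤ) : Prop :=
  ∃ f : Sym2 V → ℤ, Set.InjOn f E ∧ (∀ e ∈ E, f e ∈ A) ∧
    ∀ a b, s(a, b) ∈ E → wt f E p a ≠ wt f E p b

/-- `s` is the centre of a star component -/
def Ctr (E : Finset (Sym2 V)) (s : V) : Prop :=
  (nb E s).Nonempty ∧ ∀ u ∈ nb E s, (nb E u).card = 1

/-- there is an obvious obstruction at the star component of `s` -/
def Bad (E : Finset (Sym2 V)) (p : V → ℤ) (s : V) : Prop :=
  Ctr E s ∧ (∀ u ∈ nb E s, ∀ u' ∈ nb E s, p u = p u') ∧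
    ((nb E s).card = 1 → ∀ u ∈ nb E s, p u = p s)

/-- no obvious obstruction -/
def Good (E : Finset (Sym2 V)) (p : V → ℤ) : Prop := ∀ s, ¬ Bad E p s

theorem good_of_no_ctr {E : Finset (Sym2 V)} (h : ∀ s, ¬ Ctr E s) (p : V → ℤ) : Good E p :=
  fun s hs => h s hs.1

/-! ### Gluing -/

/-- the labelling `g` on `D`, `f` elsewhere -/
def pw (D : Finset (Sym2 V)) (g f : Sym2 V → ℤ) : Sym2 V → ℤ := fun e => if e ∈ D then g e else f e

theorem pw_of_mem {D : Finset (Sym2 V)} {g f : Sym2 V → ℤ} {e : Sym2 V} (h : e ∈ D) :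
    pw D g f e = g e := if_pos h

theorem pw_of_notMem {D : Finset (Sym2 V)} {g f : Sym2 V → ℤ} {e : Sym2 V} (h : e ∉ D) :
    pw D g f e = f e := if_neg h

theorem nb_union {E D : Finset (Sym2 V)} (hD : D ⊆ E) (v : V) :
    nb E v = nb D v ∪ nb (E \ D) v := by
  ext u
  simp only [mem_union, mem_nb, mem_sdiff]
  constructor
  · intro h
    by_cases h1 : s(v, u) ∈ D
    · exact Or.inl h1
    · exact Or.inr ⟨h, h1⟩
  · rintro (h | h)
    · exact hD h
    · exact h.1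

theorem nb_disj (E D : Finset (Sym2 V)) (v : V) : Disjoint (nb D v) (nb (E \ D) v) := by
  rw [Finset.disjoint_left]
  intro u h1 h2
  rw [mem_nb] at h1 h2
  exact (mem_sdiff.1 h2).2 h1

theorem wt_pw {E D : Finset (Sym2 V)} (hD : D ⊆ E) (g f : Sym2 V → ℤ) (p : V → ℤ) (v : V) :
    wt (pw D g f) E p v = wt g D p v + ∑ u ∈ nb (E \ D) v, f s(v, u) := by
  unfold wt
  rw [nb_union hD v, Finset.sum_union (nb_disj E D v)]
  have h1 : ∑ u ∈ nb D v, pw D g f s(v, u) = ∑ u ∈ nb D v, g s(v, u) :=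
    Finset.sum_congr rfl (fun u hu => pw_of_mem (mem_nb.1 hu))
  have h2 : ∑ u ∈ nb (E \ D) v, pw D g f s(v, u) = ∑ u ∈ nb (E \ D) v, f s(v, u) :=
    Finset.sum_congr rfl (fun u hu => pw_of_notMem (mem_sdiff.1 (mem_nb.1 hu)).2)
  rw [h1, h2]
  ring

theorem pw_injOn {E D : Finset (Sym2 V)} {g f : Sym2 V → ℤ} (hg : Set.InjOn g D)
    (hf : Set.InjOn f (E \ D : Finset (Sym2 V))) (hne : ∀ e ∈ E \ D, ∀ e' ∈ D, f e ≠ g e') :
    Set.InjOn (pw D g f) E := by
  intro a ha b hb hab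
  have ha' : a ∈ E := ha
  have hb' : b ∈ E := hb
  by_cases h1 : a ∈ D
  · by_cases h2 : b ∈ D
    · rw [pw_of_mem h1, pw_of_mem h2] at hab
      exact hg h1 h2 hab
    · rw [pw_of_mem h1, pw_of_notMem h2] at hab
      exact absurd hab.symm (hne b (mem_sdiff.2 ⟨hb', h2⟩) a h1)
  · by_cases h2 : b ∈ D
    · rw [pw_of_notMem h1, pw_of_mem h2] at hab
      exact absurd hab (hne a (mem_sdiff.2 ⟨ha', h1⟩) b h2)
    · rw [pw_of_notMem h1, pw_of_notMem h2] at hab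
      exact hf (mem_coe.2 (mem_sdiff.2 ⟨ha', h1⟩)) (mem_coe.2 (mem_sdiff.2 ⟨hb', h2⟩)) hab

theorem pw_mem {E D : Finset (Sym2 V)} {g f : Sym2 V → ℤ} {A : Finset ℤ}
    (hg : ∀ e ∈ D, g e ∈ A) (hf : ∀ e ∈ E \ D, f e ∈ A) : ∀ e ∈ E, pw D g f e ∈ A := by
  intro e he
  by_cases h1 : e ∈ D
  · rw [pw_of_mem h1]; exact hg e h1
  · rw [pw_of_notMem h1]; exact hf e (mem_sdiff.2 ⟨he, h1⟩)

theorem glue {E D : Finset (Sym2 V)} (hD : D ⊆ E) {p p' : V → ℤ} {A : Finset ℤ}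
    {g f : Sym2 V → ℤ} (hg : Set.InjOn g D) (hgA : ∀ e ∈ D, g e ∈ A)
    (hf : Set.InjOn f (E \ D : Finset (Sym2 V))) (hfA : ∀ e ∈ E \ D, f e ∈ A)
    (hne : ∀ e ∈ E \ D, ∀ e' ∈ D, f e ≠ g e')
    (hw : ∀ a b, s(a, b) ∈ E \ D → wt f (E \ D) p' a ≠ wt f (E \ D) p' b)
    (hp : ∀ v, (nb (E \ D) v).Nonempty → p' v = wt g D p v)
    (hc : ∀ a b, s(a, b) ∈ D → wt (pw D g f) E p a ≠ wt (pw D g f) E p b) : Sol E p A := by
  refine ⟨pw D g f, pw_injOn hg hf hne, pw_mem hgA hfA, ?_⟩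
  intro a b hab
  by_cases h1 : s(a, b) ∈ D
  · exact hc a b h1
  · have hab' : s(a, b) ∈ E \ D := mem_sdiff.2 ⟨hab, h1⟩
    have ha : (nb (E \ D) a).Nonempty := ⟨b, mem_nb.2 hab'⟩
    have hb : (nb (E \ D) b).Nonempty := ⟨a, mem_nb_comm.1 (mem_nb.2 hab')⟩
    have := hw a b hab'
    rw [wt_pw hD, wt_pw hD, ← hp a ha, ← hp b hb]
    exact this

/-! ### Stars -/

/-- the edges from `y` to `P` -/
def star (y : V) (P : Finset V) : Finset (Sym2 V) := P.image (fun u => s(y, u))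

theorem mem_star {y : V} {P : Finset V} {a b : V} :
    s(a, b) ∈ star y P ↔ (a = y ∧ b ∈ P) ∨ (b = y ∧ a ∈ P) := by
  simp only [star, mem_image]
  constructor
  · rintro ⟨u, hu, h⟩
    rw [Sym2.eq_iff] at h
    rcases h with ⟨rfl, rfl⟩ | ⟨rfl, rfl⟩
    · exact Or.inl ⟨rfl, hu⟩
    · exact Or.inr ⟨rfl, hu⟩
  · rintro (⟨rfl, h⟩ | ⟨rfl, h⟩)
    · exact ⟨b, h, rfl⟩
    · exact ⟨a, h, Sym2.eq_swap⟩

theorem star_subset {E : Finset (Sym2 V)} {y : V} {P : Finset V} (hP : P ⊆ nb E y) :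
    star y P ⊆ E := by
  intro e he
  obtain ⟨u, hu, rfl⟩ := mem_image.1 he
  exact mem_nb.1 (hP hu)

theorem mk_injective (y : V) : Function.Injective (fun u : V => s(y, u)) :=
  fun _ _ h => Sym2.congr_right.1 h

theorem star_card (y : V) (P : Finset V) : (star y P).card = P.card :=
  Finset.card_image_of_injective _ (mk_injective y)

theorem nb_star_self {y : V} {P : Finset V} (hy : y ∉ P) : nb (star y P) y = P := by
  ext u
  rw [mem_nb, mem_star]
  constructor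
  · rintro (h | h)
    · exact h.2
    · exact absurd h.2 hy
  · intro h
    exact Or.inl ⟨rfl, h⟩

theorem nb_star_mem {y : V} {P : Finset V} (hy : y ∉ P) {v : V} (hv : v ∈ P) :
    nb (star y P) v = {y} := by
  have hvy : v ≠ y := fun h => hy (h ▸ hv)
  ext u
  rw [mem_nb, mem_star, mem_singleton]
  constructor
  · rintro (h | h)
    · exact absurd h.1 hvy
    · exact h.1
  · intro h
    exact Or.inr ⟨h, hv⟩

theorem nb_star_other {y : V} {P : Finset V} {v : V} (hvy : v ≠ y) (hv : v ∉ P) :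
    nb (star y P) v = ∅ := by
  ext u
  rw [mem_nb, mem_star]
  constructor
  · rintro (h | h)
    · exact absurd h.1 hvy
    · exact absurd h.2 hv
  · intro h
    exact absurd h (notMem_empty _)

theorem wt_star_self {y : V} {P : Finset V} (hy : y ∉ P) (g : Sym2 V → ℤ) (p : V → ℤ) :
    wt g (star y P) p y = p y + ∑ z ∈ P, g s(y, z) := by
  unfold wt
  rw [nb_star_self hy]

theorem wt_star_mem {y : V} {P : Finset V} (hy : y ∉ P) {v : V} (hv : v ∈ P) (g : Sym2 V → ℤ)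
    (p : V → ℤ) : wt g (star y P) p v = p v + g s(y, v) := by
  unfold wt
  rw [nb_star_mem hy hv, Finset.sum_singleton, Sym2.eq_swap]

theorem wt_star_other {y : V} {P : Finset V} {v : V} (hvy : v ≠ y) (hv : v ∉ P) (g : Sym2 V → ℤ)
    (p : V → ℤ) : wt g (star y P) p v = p v := by
  unfold wt
  rw [nb_star_other hvy hv, Finset.sum_empty, add_zero]

theorem nb_sdiff_self {E : Finset (Sym2 V)} {y : V} {P : Finset V} (hy : y ∉ P) :
    nb (E \ star y P) y = nb E y \ P := by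
  ext u
  rw [mem_nb, mem_sdiff, mem_sdiff, mem_nb, mem_star]
  constructor
  · rintro ⟨h1, h2⟩
    exact ⟨h1, fun h => h2 (Or.inl ⟨rfl, h⟩)⟩
  · rintro ⟨h1, h2⟩
    refine ⟨h1, ?_⟩
    rintro (h | h)
    · exact h2 h.2
    · exact hy h.2

theorem nb_sdiff_mem {E : Finset (Sym2 V)} {y : V} {P : Finset V} {v : V} (hvy : v ≠ y)
    (hv : v ∈ P) : nb (E \ star y P) v = (nb E v).erase y := by
  ext u
  rw [mem_nb, mem_sdiff, mem_erase, mem_nb, mem_star]
  constructor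
  · rintro ⟨h1, h2⟩
    exact ⟨fun h => h2 (Or.inr ⟨h, hv⟩), h1⟩
  · rintro ⟨h1, h2⟩
    refine ⟨h2, ?_⟩
    rintro (h | h)
    · exact hvy h.1
    · exact h1 h.1

theorem nb_sdiff_other {E : Finset (Sym2 V)} {y : V} {P : Finset V} {v : V} (hvy : v ≠ y)
    (hv : v ∉ P) : nb (E \ star y P) v = nb E v := by
  ext u
  rw [mem_nb, mem_sdiff, mem_nb, mem_star]
  constructor
  · rintro ⟨h1, -⟩
    exact h1
  · intro h1
    refine ⟨h1, ?_⟩
    rintro (h | h)
    · exact hvy h.1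
    · exact hv h.2

/-- a labelling of the edges at `y` from a labelling of the vertices -/
noncomputable def sg (y : V) (γ : V → ℤ) : Sym2 V → ℤ :=
  Function.extend (fun z => s(y, z)) γ 0

theorem sg_apply (y : V) (γ : V → ℤ) (z : V) : sg y γ s(y, z) = γ z :=
  (mk_injective y).extend_apply γ 0 z

theorem sg_injOn {y : V} {γ : V → ℤ} {P : Finset V} (h : Set.InjOn γ P) :
    Set.InjOn (sg y γ) (star y P) := by
  intro a ha b hb hab
  obtain ⟨u, hu, rfl⟩ := mem_image.1 (mem_coe.1 ha)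
  obtain ⟨v, hv, rfl⟩ := mem_image.1 (mem_coe.1 hb)
  simp only [sg_apply] at hab
  rw [h hu hv hab]

theorem glue_star {E : Finset (Sym2 V)} {y : V} {P : Finset V} (hP : P ⊆ nb E y)
    {p p' : V → ℤ} {A : Finset ℤ}
    {γ : V → ℤ} {f : Sym2 V → ℤ} (hg : Set.InjOn γ P) (hgA : ∀ z ∈ P, γ z ∈ A)
    (hf : Set.InjOn f (E \ star y P : Finset (Sym2 V))) (hfA : ∀ e ∈ E \ star y P, f e ∈ A)
    (hne : ∀ e ∈ E \ star y P, ∀ z ∈ P, f e ≠ γ z)
    (hw : ∀ a b, s(a, b) ∈ E \ star y P →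
      wt f (E \ star y P) p' a ≠ wt f (E \ star y P) p' b)
    (hp : ∀ v, (nb (E \ star y P) v).Nonempty → p' v = wt (sg y γ) (star y P) p v)
    (hc : ∀ z ∈ P, wt (pw (star y P) (sg y γ) f) E p y ≠ wt (pw (star y P) (sg y γ) f) E p z) :
    Sol E p A := by
  refine glue (star_subset hP) (sg_injOn hg) ?_ hf hfA ?_ hw hp ?_
  · intro e he
    obtain ⟨u, hu, rfl⟩ := mem_image.1 he
    simp only [sg_apply]
    exact hgA u hu
  · intro e he e' he'
    obtain ⟨u, hu, rfl⟩ := mem_image.1 he'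
    simp only [sg_apply]
    exact hne e he u hu
  · intro a b hab
    rw [mem_star] at hab
    rcases hab with ⟨rfl, h⟩ | ⟨rfl, h⟩
    · exact hc b h
    · exact (hc a h).symm

/-! ### The induction hypothesis -/

/-- the induction hypothesis -/
def IH (V : Type*) [Fintype V] [DecidableEq V] (n : ℕ) : Prop :=
  ∀ (E : Finset (Sym2 V)) (p : V → ℤ) (A : Finset ℤ), E.card < n → NoLoop E → Good E p →
    E.card ≤ A.card → Sol E p A

theorem IH.use {E D : Finset (Sym2 V)} (ih : IH V E.card) (hE : NoLoop E) (hD : D ⊆ E)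
    (hDn : D.Nonempty) {p : V → ℤ} (hG : Good (E \ D) p) {A R : Finset ℤ} (hA : E.card ≤ A.card)
    (hR : R.card ≤ D.card) :
    ∃ f : Sym2 V → ℤ, Set.InjOn f (E \ D : Finset (Sym2 V)) ∧ (∀ e ∈ E \ D, f e ∈ A ∧ f e ∉ R) ∧
      ∀ a b, s(a, b) ∈ E \ D → wt f (E \ D) p a ≠ wt f (E \ D) p b := by
  have h1 : 0 < D.card := card_pos.2 hDn
  have h2 : D.card ≤ E.card := card_le_card hD
  have h3 : (E \ D).card = E.card - D.card := card_sdiff_of_subset hD
  have h4 : A.card - R.card ≤ (A \ R).card := le_card_sdiff _ _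
  obtain ⟨f, hf1, hf2, hf3⟩ := ih (E \ D) p (A \ R) (by omega)
    (fun v hv => hE v (mem_sdiff.1 hv).1) hG (by omega)
  exact ⟨f, hf1, fun e he => mem_sdiff.1 (hf2 e he), hf3⟩

end Run7.h574.LA
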