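import Pool.Agent.Run7.h574.LA.MinRule

/-!
# The weighted local antimagic lemma
-/

set_option autoImplicit false
set_option linter.unusedSectionVars false

namespace Run7.h574.LA

open Finset

variable {V : Type*} [Fintype V] [DecidableEq V]

theorem main_step (E : Finset (Sym2 V)) (p : V → ℤ) (A : Finset ℤ) (ih : IH V E.card)
    (hE : NoLoop E) (hG : Good E p) (hA : E.card ≤ A.card) : Sol E p A := by
  classical
  by_cases hEn : E = ∅
  · subst hEn
    exact ⟨0, by simp, by simp, by simp⟩
  by_cases hctr : ∃ s, Ctr E s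
  · obtain ⟨s, hs⟩ := hctr
    exact rule_ctr hE hG hA ih hs
  push Not at hctr
  by_cases hR : ∃ y, ((nb E y).filter (fun z => (nb E z).card = 1)).Nonempty ∧
      ((nb E y).filter (fun z => (nb E z).card ≠ 1)).card = 1
  · obtain ⟨y, hPn, hc⟩ := hR
    obtain ⟨u, hu⟩ := card_eq_one.1 hc
    have hu' : u ∈ (nb E y).filter (fun z => (nb E z).card ≠ 1) := by
      rw [hu]; exact mem_singleton_self _
    obtain ⟨huy, hu1⟩ := mem_filter.1 hu'
    have hP1 : ∀ z ∈ (nb E y).filter (fun z => (nb E z).card = 1), (nb E z).card = 1 :=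
      fun z hz => (mem_filter.1 hz).2
    have hy : nb E y = insert u ((nb E y).filter (fun z => (nb E z).card = 1)) := by
      ext t
      rw [mem_insert, mem_filter]
      constructor
      · intro ht
        by_cases h1 : (nb E t).card = 1
        · exact Or.inr ⟨ht, h1⟩
        · left
          have : t ∈ (nb E y).filter (fun z => (nb E z).card ≠ 1) := mem_filter.2 ⟨ht, h1⟩
          rw [hu, mem_singleton] at this
          exact this
      · rintro (rfl | h)
        · exact huy
        · exact h.1
    by_cases hv : ∃ v ∈ nb E u, v ≠ y ∧ (nb E v).card ≠ 1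
    · obtain ⟨v, hvu, hvy, hv1⟩ := hv
      exact rule_E hE hctr hA ih hPn hP1 hu1 hy hvu hvy hv1
    · push Not at hv
      have hyu : y ∈ nb E u := mem_nb_comm.1 huy
      have hQ1 : ∀ z ∈ (nb E u).erase y, (nb E z).card = 1 := by
        intro z hz
        obtain ⟨h1, h2⟩ := mem_erase.1 hz
        exact hv z h2 h1
      have hQn : ((nb E u).erase y).Nonempty := by
        rw [← card_pos, card_erase_of_mem hyu]
        have : 0 < (nb E u).card := card_pos.2 ⟨y, hyu⟩
        omega
      have hy1 : (nb E y).card ≠ 1 := by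
        obtain ⟨z, hz⟩ := hPn
        obtain ⟨hz1, hz2⟩ := mem_filter.1 hz
        refine two_le_card_of_mem hz1 huy ?_
        rintro rfl
        exact hu1 hz2
      exact rule_DS hE hctr hA ih hPn hQn hP1 hQ1 hu1 hy1 hy (insert_erase hyu).symm
  push Not at hR
  have hN3 : N3 E := by
    intro y hyn hy1
    have h2 : 1 < ((nb E y).filter (fun z => (nb E z).card ≠ 1)).card := by
      have h3 := card_filter_add_card_filter_not (s := nb E y) (fun z => (nb E z).card = 1)
      have h4 := card_pos.2 hyn
      by_cases hPn : ((nb E y).filter (fun z => (nb E z).card = 1)).Nonempty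
      · have h5 := hR y hPn
        have h6 : ((nb E y).filter (fun z => (nb E z).card ≠ 1)).Nonempty := by
          by_contra h
          rw [not_nonempty_iff_eq_empty, filter_eq_empty_iff] at h
          refine hctr y ⟨hyn, ?_⟩
          intro u hu
          by_contra h7
          exact h hu h7
        have h7 := card_pos.2 h6
        omega
      · rw [not_nonempty_iff_eq_empty] at hPn
        rw [hPn, card_empty] at h3
        simp only [ne_eq]
        omega
    obtain ⟨u, hu, u', hu', huu⟩ := one_lt_card.1 h2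
    obtain ⟨h5, h6⟩ := mem_filter.1 hu
    obtain ⟨h5', h6'⟩ := mem_filter.1 hu'
    exact ⟨u, h5, u', h5', huu, h6, h6'⟩
  obtain ⟨S, hS, hS'⟩ := exists_low A
  obtain ⟨x, hx, hxm⟩ := exists_min_image (univ.filter (fun v => (nb E v).Nonempty))
    (fun v => p v + S (nb E v).card) (by
      obtain ⟨e, he⟩ := nonempty_iff_ne_empty.2 hEn
      induction e using Sym2.ind with
      | _ a b => exact ⟨a, mem_filter.2 ⟨mem_univ _, ⟨b, mem_nb.2 he⟩⟩⟩)
  have hxn := (mem_filter.1 hx).2
  have hmin : ∀ v, (nb E v).Nonempty → p x + S (nb E x).card ≤ p v + S (nb E v).card :=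
    fun v hv => hxm v (mem_filter.2 ⟨mem_univ _, hv⟩)
  by_cases hx1 : (nb E x).card = 1
  · obtain ⟨y, hy⟩ := card_eq_one.1 hx1
    have hyx : y ∈ nb E x := by rw [hy]; exact mem_singleton_self _
    have hxy : x ∈ nb E y := mem_nb_comm.1 hyx
    rcases lt_or_eq_of_le (hmin y ⟨x, hxy⟩) with hlt | heq
    · rw [hx1] at hlt
      exact rule_pend hE hctr hN3 hA ih hS hS' hy hlt
    · have hy1 : (nb E y).card ≠ 1 := fun h => hctr x (ctr_of_pendants hyx hx1 h)
      refine rule_min hE hctr hN3 hA ih hS hS' ⟨x, hxy⟩ hy1 ?_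
      intro z hz
      rw [← heq]
      exact hmin z ⟨y, mem_nb_comm.1 hz⟩
  · refine rule_min hE hctr hN3 hA ih hS hS' hxn hx1 ?_
    intro z hz
    exact hmin z ⟨x, mem_nb_comm.1 hz⟩

/-- **Weighted local antimagic lemma.** -/
theorem main_lemma (E : Finset (Sym2 V)) (p : V → ℤ) (A : Finset ℤ)
    (hE : NoLoop E) (hG : Good E p) (hA : E.card ≤ A.card) : Sol E p A := by
  have key : ∀ n : ℕ, ∀ (E : Finset (Sym2 V)) (p : V → ℤ) (A : Finset ℤ), E.card = n →
      NoLoop E → Good E p → E.card ≤ A.card → Sol E p A := by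
    intro n
    induction n using Nat.strong_induction_on with
    | _ n ih =>
      intro E p A hn hE hG hA
      refine main_step E p A ?_ hE hG hA
      intro E' p' A' h1 h2 h3 h4
      exact ih E'.card (by omega) E' p' A' rfl h2 h3 h4
  exact key _ E p A rfl hE hG hA

end Run7.h574.LA
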