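import Pool.Agent.Run7.h574.LA.Rules

/-!
# The rules at a vertex of smallest low weight
-/

set_option autoImplicit false
set_option linter.unusedSectionVars false

namespace Run7.h574.LA

open Finset

variable {V : Type*} [Fintype V] [DecidableEq V]

theorem labels_injOn {E : Finset (Sym2 V)} {f : Sym2 V → ℤ} (hf : Set.InjOn f E) (v : V) :
    Set.InjOn (fun u => f s(v, u)) (nb E v) := by
  intro a ha b hb hab
  have h1 := hf (mem_coe.2 (mem_nb.1 (mem_coe.1 ha))) (mem_coe.2 (mem_nb.1 (mem_coe.1 hb))) hab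
  exact mk_injective v h1

theorem low_le {E : Finset (Sym2 V)} {A : Finset ℤ} {S : ℕ → ℤ}
    (hS : ∀ T ⊆ A, S T.card ≤ ∑ t ∈ T, t) {f : Sym2 V → ℤ} (hf : Set.InjOn f E)
    (hfA : ∀ e ∈ E, f e ∈ A) (v : V) : S (nb E v).card ≤ ∑ u ∈ nb E v, f s(v, u) := by
  have h1 := hS ((nb E v).image (fun u => f s(v, u))) (by
    intro t ht
    obtain ⟨u, hu, rfl⟩ := mem_image.1 ht
    exact hfA _ (mem_nb.1 hu))
  rwa [card_image_of_injOn (labels_injOn hf v), sum_image (labels_injOn hf v)] at h1

theorem low_lt {E : Finset (Sym2 V)} {A : Finset ℤ} {S : ℕ → ℤ}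
    (hS : ∀ T ⊆ A, S T.card ≤ ∑ t ∈ T, t) {f : Sym2 V → ℤ} (hf : Set.InjOn f E)
    (hfA : ∀ e ∈ E, f e ∈ A) {v u : V} {b : ℤ} (hb : b ∈ A) (hbn : ∀ u ∈ nb E v, f s(v, u) ≠ b)
    (hu : u ∈ nb E v) (hlt : b < f s(v, u)) :
    S (nb E v).card < ∑ u ∈ nb E v, f s(v, u) := by
  obtain ⟨T, hT⟩ : ∃ T, T = (nb E v).image (fun u => f s(v, u)) := ⟨_, rfl⟩
  have hTA : T ⊆ A := by
    intro t ht
    rw [hT] at ht
    obtain ⟨u, hu, rfl⟩ := mem_image.1 ht
    exact hfA _ (mem_nb.1 hu)
  have hbT : b ∉ T := by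
    intro h
    rw [hT] at h
    obtain ⟨u, hu, hub⟩ := mem_image.1 h
    exact hbn u hu hub
  have huT : f s(v, u) ∈ T := by
    rw [hT]
    exact mem_image_of_mem (fun u => f s(v, u)) hu
  have h1 := hS (insert b (T.erase (f s(v, u)))) (by
    intro t ht
    rcases mem_insert.1 ht with rfl | ht
    · exact hb
    · exact hTA (mem_of_mem_erase ht))
  rw [card_exchange huT hbT, sum_exchange huT hbT, hT, card_image_of_injOn (labels_injOn hf v),
    sum_image (labels_injOn hf v)] at h1
  linarith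

/-- every vertex of degree at least 2 has two neighbours of degree at least 2 -/
def N3 (E : Finset (Sym2 V)) : Prop :=
  ∀ y, (nb E y).Nonempty → (nb E y).card ≠ 1 →
    ∃ u ∈ nb E y, ∃ u' ∈ nb E y, u ≠ u' ∧ (nb E u).card ≠ 1 ∧ (nb E u').card ≠ 1

theorem two_le_card_of_mem {α : Type*} [DecidableEq α] {T : Finset α} {a b : α} (ha : a ∈ T)
    (hb : b ∈ T) (hab : a ≠ b) : T.card ≠ 1 := by
  intro h
  obtain ⟨c, hc⟩ := card_eq_one.1 h
  rw [hc, mem_singleton] at ha hb
  exact hab (ha.trans hb.symm)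

/-- a pendant vertex whose low weight is smaller than that of its neighbour -/
theorem rule_pend {E : Finset (Sym2 V)} (hE : NoLoop E) {p : V → ℤ} (hN : ∀ s, ¬ Ctr E s)
    (hN3 : N3 E) {A : Finset ℤ} (hA : E.card ≤ A.card) (ih : IH V E.card) {S : ℕ → ℤ}
    (hS : ∀ T ⊆ A, S T.card ≤ ∑ t ∈ T, t)
    (hS' : ∀ k ≤ A.card, ∃ B ⊆ A, B.card = k ∧ ∑ t ∈ B, t = S k ∧
      ∀ b ∈ B, ∀ a ∈ A, a ∉ B → b < a) {x y : V} (hx : nb E x = {y})
    (hlt : p x + S 1 < p y + S (nb E y).card) : Sol E p A := by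
  have hyx : y ∈ nb E x := by rw [hx]; exact mem_singleton_self _
  have hxy : x ∈ nb E y := mem_nb_comm.1 hyx
  have hne : y ≠ x := fun h => hE x (mem_nb.1 (h ▸ hyx))
  have hy1 : (nb E y).card ≠ 1 := by
    intro h
    exact hN x (ctr_of_pendants hyx (by rw [hx, card_singleton]) h)
  obtain ⟨u, hu, u', hu', huu, hu1, hu1'⟩ := hN3 y ⟨x, hxy⟩ hy1
  have hx1 : (nb E x).card = 1 := by rw [hx, card_singleton]
  have hux : u ≠ x := fun h => hu1 (h ▸ hx1)
  have hux' : u' ≠ x := fun h => hu1' (h ▸ hx1)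
  have hxP : x ∉ ({y} : Finset V) := fun h => hne (mem_singleton.1 h).symm
  have hPs : ({y} : Finset V) ⊆ nb E x := by rw [hx]
  have hnbx : nb (E \ star x {y}) x = ∅ := by
    rw [nb_sdiff_self hxP, hx, sdiff_self]
    rfl
  have hnby : nb (E \ star x {y}) y = (nb E y).erase x :=
    nb_sdiff_mem hne (mem_singleton_self _)
  have hnbo : ∀ t, t ≠ x → t ≠ y → nb (E \ star x {y}) t = nb E t :=
    fun t h1 h2 => nb_sdiff_other h1 (fun h => h2 (mem_singleton.1 h))
  have hnoctr : ∀ s, ¬ Ctr (E \ star x {y}) s := by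
    intro s hs
    have hsx : s ≠ x := by
      rintro rfl
      have := hs.1
      rw [hnbx] at this
      exact not_nonempty_empty this
    by_cases hsy : s = y
    · subst hsy
      have huy : u ≠ s := fun h => hE s (mem_nb.1 (h ▸ hu))
      have h1 := hs.2 u (by rw [hnby]; exact mem_erase.2 ⟨hux, hu⟩)
      rw [hnbo u hux huy] at h1
      exact hu1 h1
    · have h1 := hnbo s hsx hsy
      apply hN s
      refine ⟨h1 ▸ hs.1, ?_⟩
      intro t ht
      have htx : t ≠ x := by
        rintro rfl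
        have : s ∈ nb E t := mem_nb_comm.1 ht
        rw [hx, mem_singleton] at this
        exact hsy this
      have h2 := hs.2 t (by rw [h1]; exact ht)
      by_cases hty : t = y
      · subst hty
        rw [hnby] at h2
        exact absurd h2 (two_le_card_of_mem (mem_erase.2 ⟨hux, hu⟩) (mem_erase.2 ⟨hux', hu'⟩) huu)
      · rwa [hnbo t htx hty] at h2
  have hE1 : 1 ≤ E.card := card_pos.2 ⟨_, mem_nb.1 hyx⟩
  obtain ⟨B, hBA, hBc, hBs, -⟩ := hS' 1 (by omega)
  obtain ⟨b, hb⟩ := card_eq_one.1 hBc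
  rw [hb, sum_singleton] at hBs
  have hbA : b ∈ A := hBA (by rw [hb]; exact mem_singleton_self _)
  obtain ⟨f, hf1, hf2, hf3⟩ := ih.use (p := Function.update p y (p y + b)) hE
    (star_subset hPs) (card_pos.1 (by rw [star_card, card_singleton]; omega))
    (good_of_no_ctr hnoctr _) hA (R := {b}) (by rw [star_card, card_singleton, card_singleton])
  have hγinj : Set.InjOn (fun _ : V => b) ({y} : Finset V) := by
    intro a ha c hc _
    rw [mem_coe, mem_singleton] at ha hc
    rw [ha, hc]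
  have hne' : ∀ e ∈ E \ star x {y}, f e ≠ b := fun e he h =>
    (hf2 e he).2 (mem_singleton.2 h)
  refine glue_star (p' := Function.update p y (p y + b)) (f := f) (γ := fun _ => b) hPs hγinj
    (fun z hz => hbA) hf1 (fun e he => (hf2 e he).1) (fun e he z _ => hne' e he) hf3 ?_ ?_
  · intro t ht
    by_cases hty : t = y
    · subst hty
      rw [Function.update_self, wt_star_mem hxP (mem_singleton_self _), sg_apply]
    · have htx : t ≠ x := by
        rintro rfl
        rw [hnbx] at ht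
        exact not_nonempty_empty ht
      rw [Function.update_of_ne hty, wt_star_other htx (fun h => hty (mem_singleton.1 h))]
  · intro z hz
    rw [mem_singleton] at hz
    subst hz
    have hinj : Set.InjOn (pw (star x {z}) (sg x (fun _ => b)) f) E := by
      refine pw_injOn (sg_injOn hγinj) hf1 ?_
      intro e he e' he'
      obtain ⟨a, ha, rfl⟩ := mem_image.1 he'
      simp only [sg_apply]
      exact hne' e he
    have hmem : ∀ e ∈ E, pw (star x {z}) (sg x (fun _ => b)) f e ∈ A := by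
      refine pw_mem ?_ (fun e he => (hf2 e he).1)
      intro e he
      obtain ⟨a, ha, rfl⟩ := mem_image.1 he
      simp only [sg_apply]
      exact hbA
    have h1 := low_le hS hinj hmem z
    have h2 : wt (pw (star x {z}) (sg x (fun _ => b)) f) E p x = p x + b := by
      rw [wt_pw (star_subset hPs), hnbx, wt_star_self hxP, sum_singleton, sg_apply, sum_empty,
        add_zero]
    apply ne_of_lt
    rw [h2]
    unfold wt
    linarith

/-- the initial weights after removing the edges at `x` -/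
def pb (E : Finset (Sym2 V)) (p : V → ℤ) (x : V) (β : V → ℤ) : V → ℤ :=
  fun v => p v + if v ∈ nb E x then β v else 0

theorem pb_of_mem {E : Finset (Sym2 V)} {p : V → ℤ} {x : V} {β : V → ℤ} {v : V}
    (hv : v ∈ nb E x) : pb E p x β v = p v + β v := by
  unfold pb
  rw [if_pos hv]

/-- the structure of star components after removing all edges at `x` -/
theorem ctr_after {E : Finset (Sym2 V)} (hE : NoLoop E) (hN : ∀ s, ¬ Ctr E s)
    (hN3 : N3 E) {x s : V} (hs : Ctr (E \ star x (nb E x)) s) :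
    ∃ a b, a ≠ b ∧ a ∈ nb E x ∧ b ∈ nb E x ∧ (nb E a).card ≠ 1 ∧ (nb E b).card ≠ 1 ∧
      a ∈ nb (E \ star x (nb E x)) s ∧ nb (E \ star x (nb E x)) a = {s} ∧
      ((b ∈ nb (E \ star x (nb E x)) s ∧ nb (E \ star x (nb E x)) b = {s}) ∨ b = s) := by
  have hxP : x ∉ nb E x := fun h => hE x (mem_nb.1 h)
  obtain ⟨E', hE'⟩ : ∃ E', E' = E \ star x (nb E x) := ⟨_, rfl⟩
  rw [← hE'] at hs ⊢
  have hnbx : nb E' x = ∅ := by
    rw [hE', nb_sdiff_self hxP, sdiff_self]
    rfl
  have hnbm : ∀ v ∈ nb E x, nb E' v = (nb E v).erase x := by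
    intro v hv
    rw [hE']
    exact nb_sdiff_mem (ne_of_mem_of_not_mem hv hxP) hv
  have hnbo : ∀ v, v ≠ x → v ∉ nb E x → nb E' v = nb E v := by
    intro v h1 h2
    rw [hE']
    exact nb_sdiff_other h1 h2
  have hsx : s ≠ x := by
    rintro rfl
    have := hs.1
    rw [hnbx] at this
    exact not_nonempty_empty this
  have hsub : ∀ v, nb E' v ⊆ nb E v := by
    intro v t ht
    rw [hE', mem_nb, mem_sdiff] at ht
    exact mem_nb.2 ht.1
  -- a neighbour of `s` in `E` which is not `x` is a neighbour in `E'`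
  have hback : ∀ t ∈ nb E s, t ≠ x → t ∈ nb E' s := by
    intro t ht htx
    by_cases h : s ∈ nb E x
    · rw [hnbm s h]; exact mem_erase.2 ⟨htx, ht⟩
    · rw [hnbo s hsx h]; exact ht
  -- nonpendant neighbours
  have hnonp : ∀ t ∈ nb E s, t ≠ x → (nb E t).card ≠ 1 →
      t ∈ nb E' s ∧ t ∈ nb E x ∧ nb E' t = {s} := by
    intro t ht htx ht1
    have h1 := hback t ht htx
    have h2 := hs.2 t h1
    have h3 : t ∈ nb E x := by
      by_contra h
      rw [hnbo t htx h] at h2
      exact ht1 h2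
    refine ⟨h1, h3, ?_⟩
    obtain ⟨c, hc⟩ := card_eq_one.1 h2
    have h4 : s ∈ nb E' t := mem_nb_comm.1 h1
    rw [hc, mem_singleton] at h4
    rw [hc, h4]
  -- the degree of `s` is at least two
  have hs1 : (nb E s).card ≠ 1 := by
    intro hs1
    obtain ⟨t, ht⟩ := card_eq_one.1 hs1
    have htE : t ∈ nb E s := by rw [ht]; exact mem_singleton_self _
    have ht1 : (nb E t).card ≠ 1 := fun h => hN s (ctr_of_pendants htE hs1 h)
    have htx : t ≠ x := by
      rintro rfl
      obtain ⟨v, hv⟩ := hs.1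
      have h1 := hsub s hv
      rw [ht, mem_singleton] at h1
      subst h1
      have h2 : s ∈ nb E' v := mem_nb_comm.1 hv
      rw [hnbx] at h2
      exact notMem_empty _ h2
    obtain ⟨h1, h2, h3⟩ := hnonp t htE htx ht1
    obtain ⟨u, hu, u', hu', huu, hu1, hu1'⟩ := hN3 t ⟨s, mem_nb_comm.1 htE⟩ ht1
    rw [hnbm t h2] at h3
    have hus : u = x := by
      by_contra h
      have : u ∈ (nb E t).erase x := mem_erase.2 ⟨h, hu⟩
      rw [h3, mem_singleton] at this
      exact hu1 (this ▸ hs1)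
    have hus' : u' = x := by
      by_contra h
      have : u' ∈ (nb E t).erase x := mem_erase.2 ⟨h, hu'⟩
      rw [h3, mem_singleton] at this
      exact hu1' (this ▸ hs1)
    exact huu (hus.trans hus'.symm)
  obtain ⟨v, hv⟩ := hs.1
  obtain ⟨u, hu, u', hu', huu, hu1, hu1'⟩ := hN3 s ⟨v, hsub s hv⟩ hs1
  by_cases hxs : x ∈ nb E s
  · have hsx' : s ∈ nb E x := mem_nb_comm.1 hxs
    obtain ⟨a, ha, hax, ha1⟩ : ∃ a ∈ nb E s, a ≠ x ∧ (nb E a).card ≠ 1 := by
      by_cases h : u = x
      · exact ⟨u', hu', fun h' => huu (h.trans h'.symm), hu1'⟩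
      · exact ⟨u, hu, h, hu1⟩
    obtain ⟨h1, h2, h3⟩ := hnonp a ha hax ha1
    refine ⟨a, s, ?_, h2, hsx', ha1, hs1, h1, h3, Or.inr rfl⟩
    rintro rfl
    exact hE a (mem_nb.1 ha)
  · have hux : u ≠ x := fun h => hxs (h ▸ hu)
    have hux' : u' ≠ x := fun h => hxs (h ▸ hu')
    obtain ⟨h1, h2, h3⟩ := hnonp u hu hux hu1
    obtain ⟨h1', h2', h3'⟩ := hnonp u' hu' hux' hu1'
    exact ⟨u, u', huu, h2, h2', hu1, hu1', h1, h3, Or.inl ⟨h1', h3'⟩⟩

theorem bad_congr {E : Finset (Sym2 V)} {p' p'' : V → ℤ} {v : V} (hv : p'' v = p' v)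
    (h : ∀ u ∈ nb E v, p'' u = p' u) (hB : Bad E p'' v) : Bad E p' v := by
  refine ⟨hB.1, ?_, ?_⟩
  · intro u hu u' hu'
    rw [← h u hu, ← h u' hu']
    exact hB.2.1 u hu u' hu'
  · intro h1 u hu
    rw [← h u hu, ← hv]
    exact hB.2.2 h1 u hu

/-- exchanging two labels repairs a star component and creates no new obstruction -/
theorem swap_fewer {E : Finset (Sym2 V)} (hE : NoLoop E) {p' p'' : V → ℤ} {s a b : V}
    (hab : a ≠ b) {δ : ℤ} (hδ : δ ≠ 0) (ha : p'' a = p' a + δ) (hb : p'' b = p' b - δ)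
    (hother : ∀ v, v ≠ a → v ≠ b → p'' v = p' v) (hsB : Bad E p' s) (has : a ∈ nb E s)
    (hna : nb E a = {s}) (hcase : (b ∈ nb E s ∧ nb E b = {s}) ∨ b = s) :
    ¬ Bad E p'' s ∧ ∀ v, Bad E p'' v → Bad E p' v := by
  have hns : ¬ Bad E p'' s := by
    intro hB
    rcases hcase with ⟨hbs, -⟩ | rfl
    · have h1 := hsB.2.1 a has b hbs
      have h2 := hB.2.1 a has b hbs
      apply hδ
      omega
    · by_cases hc : (nb E b).card = 1
      · have h1 := hsB.2.2 hc a has
        have h2 := hB.2.2 hc a has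
        apply hδ
        omega
      · obtain ⟨t, ht, hta⟩ : ∃ t ∈ nb E b, t ≠ a := by
          by_contra hcon
          push Not at hcon
          apply hc
          rw [card_eq_one]
          refine ⟨a, ?_⟩
          ext t
          rw [mem_singleton]
          exact ⟨fun h => hcon t h, fun h => h ▸ has⟩
        have htb : t ≠ b := fun h => hE b (mem_nb.1 (h ▸ ht))
        have h1 := hsB.2.1 a has t ht
        have h2 := hB.2.1 a has t ht
        rw [hother t hta htb] at h2
        apply hδ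
        omega
  refine ⟨hns, ?_⟩
  intro v hv
  have hvs : v ≠ s := fun h => hns (h ▸ hv)
  have hus : ∀ u ∈ nb E v, u ≠ a := by
    rintro u hu rfl
    have : v ∈ nb E u := mem_nb_comm.1 hu
    rw [hna, mem_singleton] at this
    exact hvs this
  rcases hcase with ⟨hbs, hnb⟩ | hbs
  · have h2 : (nb E s).card ≠ 1 := two_le_card_of_mem has hbs hab
    have hva : v ≠ a := by
      rintro rfl
      exact h2 (hv.1.2 s (by rw [hna]; exact mem_singleton_self _))
    have hvb : v ≠ b := by
      rintro rfl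
      exact h2 (hv.1.2 s (by rw [hnb]; exact mem_singleton_self _))
    refine bad_congr (hother v hva hvb) ?_ hv
    intro u hu
    refine hother u (hus u hu) ?_
    rintro rfl
    have : v ∈ nb E u := mem_nb_comm.1 hu
    rw [hnb, mem_singleton] at this
    exact hvs this
  · subst hbs
    have hva : v ≠ a := by
      rintro rfl
      have hbv : b ∈ nb E v := by rw [hna]; exact mem_singleton_self _
      have h1 := hv.1.2 b hbv
      have h2 := hv.2.2 (by rw [hna, card_singleton]) b hbv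
      have h3 := hsB.2.2 h1 v has
      apply hδ
      omega
    refine bad_congr (hother v hva hvs) ?_ hv
    intro u hu
    refine hother u (hus u hu) ?_
    rintro rfl
    have h1 := hv.1.2 u hu
    exact two_le_card_of_mem (mem_nb_comm.1 hu) has hva h1

/-- the labels at `x` can be chosen such that there is no obstruction -/
theorem exists_good_labels {E : Finset (Sym2 V)} (hE : NoLoop E) {p : V → ℤ}
    (hN : ∀ s, ¬ Ctr E s) (hN3 : N3 E) {x : V} (hx : (nb E x).Nonempty)
    (hx1 : (nb E x).card ≠ 1) {B : Finset ℤ} (hB : B.card = (nb E x).card) {b0 : ℤ}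
    (hb0 : b0 ∈ B) :
    ∃ β : V → ℤ, Set.BijOn β (nb E x) B ∧ (∃ y ∈ nb E x, (nb E y).card ≠ 1 ∧ β y = b0) ∧
      Good (E \ star x (nb E x)) (pb E p x β) := by
  classical
  have key : ∀ n : ℕ, ∀ β : V → ℤ, Set.BijOn β (nb E x) B →
      (∃ y ∈ nb E x, (nb E y).card ≠ 1 ∧ β y = b0) →
      (univ.filter (fun v => Bad (E \ star x (nb E x)) (pb E p x β) v)).card = n →
      ∃ β : V → ℤ, Set.BijOn β (nb E x) B ∧ (∃ y ∈ nb E x, (nb E y).card ≠ 1 ∧ β y = b0) ∧
      Good (E \ star x (nb E x)) (pb E p x β) := by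
    intro n
    induction n using Nat.strong_induction_on with
    | _ n ih =>
      intro β hβ hβ0 hn
      by_cases hG : Good (E \ star x (nb E x)) (pb E p x β)
      · exact ⟨β, hβ, hβ0, hG⟩
      · unfold Good at hG
        push Not at hG
        obtain ⟨s, hs⟩ := hG
        obtain ⟨a, b, hab, hax, hbx, ha1, hb1, has, hna, hcase⟩ := ctr_after hE hN hN3 hs.1
        have hβab : β b - β a ≠ 0 := by
          intro h
          exact hab (hβ.injOn hax hbx (by omega))
        obtain ⟨β', hβ'⟩ : ∃ β', β' = β ∘ Equiv.swap a b := ⟨_, rfl⟩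
        have hβ'a : β' a = β b := by rw [hβ', Function.comp_apply, Equiv.swap_apply_left]
        have hβ'b : β' b = β a := by rw [hβ', Function.comp_apply, Equiv.swap_apply_right]
        have hβ'o : ∀ v, v ≠ a → v ≠ b → β' v = β v := by
          intro v h1 h2
          rw [hβ', Function.comp_apply, Equiv.swap_apply_of_ne_of_ne h1 h2]
        obtain ⟨h1, h2⟩ := swap_fewer (E := E \ star x (nb E x)) (p' := pb E p x β)
          (p'' := pb E p x β') (fun v hv => hE v (mem_sdiff.1 hv).1) hab hβab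
          (by rw [pb_of_mem hax, pb_of_mem hax, hβ'a]; ring)
          (by rw [pb_of_mem hbx, pb_of_mem hbx, hβ'b]; ring)
          (by
            intro v h1 h2
            unfold pb
            rw [hβ'o v h1 h2]) hs has hna hcase
        refine ih _ ?_ β' (hβ' ▸ bijOn_swap hβ hax hbx) ?_ rfl
        · rw [← hn]
          apply card_lt_card
          refine ⟨?_, ?_⟩
          · intro v hv
            rw [mem_filter] at hv ⊢
            exact ⟨mem_univ _, h2 v hv.2⟩
          · intro hsub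
            have h3 : s ∈ univ.filter (fun v => Bad (E \ star x (nb E x)) (pb E p x β) v) :=
              mem_filter.2 ⟨mem_univ _, hs⟩
            exact h1 (mem_filter.1 (hsub h3)).2
        · obtain ⟨y, hy, hy1, hyb⟩ := hβ0
          by_cases hya : y = a
          · refine ⟨b, hbx, hb1, ?_⟩
            rw [hβ'b, ← hya, hyb]
          by_cases hyb' : y = b
          · refine ⟨a, hax, ha1, ?_⟩
            rw [hβ'a, ← hyb', hyb]
          · exact ⟨y, hy, hy1, by rw [hβ'o y hya hyb', hyb]⟩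
  obtain ⟨β, hβ⟩ := exists_bijOn hB.symm
  obtain ⟨u, hu, -, -, -, hu1, -⟩ := hN3 x hx hx1
  obtain ⟨v, hv, hvb⟩ := hβ.surjOn hb0
  refine key _ (β ∘ Equiv.swap u v) (bijOn_swap hβ hu hv) ⟨u, hu, hu1, ?_⟩ rfl
  rw [Function.comp_apply, Equiv.swap_apply_left, hvb]

/-- the rule at a vertex of smallest low weight -/
theorem rule_min {E : Finset (Sym2 V)} (hE : NoLoop E) {p : V → ℤ} (hN : ∀ s, ¬ Ctr E s)
    (hN3 : N3 E) {A : Finset ℤ} (hA : E.card ≤ A.card) (ih : IH V E.card) {S : ℕ → ℤ}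
    (hS : ∀ T ⊆ A, S T.card ≤ ∑ t ∈ T, t)
    (hS' : ∀ k ≤ A.card, ∃ B ⊆ A, B.card = k ∧ ∑ t ∈ B, t = S k ∧
      ∀ b ∈ B, ∀ a ∈ A, a ∉ B → b < a) {x : V} (hx : (nb E x).Nonempty)
    (hx1 : (nb E x).card ≠ 1)
    (hle : ∀ y ∈ nb E x, p x + S (nb E x).card ≤ p y + S (nb E y).card) : Sol E p A := by
  have hxP : x ∉ nb E x := fun h => hE x (mem_nb.1 h)
  have hxE : (nb E x).card ≤ E.card := by
    rw [← star_card x (nb E x)]
    exact card_le_card (star_subset (Subset.refl _))
  have hx2 : 2 ≤ (nb E x).card := by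
    have := card_pos.2 hx
    omega
  obtain ⟨B, hBA, hBc, hBs, hBlt⟩ := hS' (nb E x).card (by omega)
  obtain ⟨b0, hb0, hb0m⟩ := exists_min_image B (fun t => t) (card_pos.1 (by omega))
  obtain ⟨β, hβ, ⟨y0, hy0, hy01, hy0b⟩, hGood⟩ :=
    exists_good_labels (p := p) hE hN hN3 hx hx1 hBc hb0
  obtain ⟨f, hf1, hf2, hf3⟩ := ih.use hE (star_subset (Subset.refl (nb E x)))
    (card_pos.1 (by rw [star_card]; omega)) hGood hA (R := B) (by rw [star_card]; omega)
  have hnbx : nb (E \ star x (nb E x)) x = ∅ := by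
    rw [nb_sdiff_self hxP, sdiff_self]
    rfl
  have hne' : ∀ e ∈ E \ star x (nb E x), ∀ z ∈ nb E x, f e ≠ β z := fun e he z hz h =>
    (hf2 e he).2 (h ▸ hβ.mapsTo hz)
  refine glue_star (p' := pb E p x β) (f := f) (γ := β) (Subset.refl _) hβ.injOn
    (fun z hz => hBA (hβ.mapsTo hz)) hf1 (fun e he => (hf2 e he).1) hne' hf3 ?_ ?_
  · intro v hv
    have hvx : v ≠ x := by
      rintro rfl
      rw [hnbx] at hv
      exact not_nonempty_empty hv
    by_cases h : v ∈ nb E x
    · rw [pb_of_mem h, wt_star_mem hxP h, sg_apply]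
    · rw [wt_star_other hvx h]
      unfold pb
      rw [if_neg h, add_zero]
  · intro y hy
    have hyx : y ≠ x := ne_of_mem_of_not_mem hy hxP
    have hxy : x ∈ nb E y := mem_nb_comm.1 hy
    obtain ⟨F, hF⟩ : ∃ F, F = pw (star x (nb E x)) (sg x β) f := ⟨_, rfl⟩
    have hinj : Set.InjOn F E := by
      rw [hF]
      refine pw_injOn (sg_injOn hβ.injOn) hf1 ?_
      intro e he e' he'
      obtain ⟨a, ha, rfl⟩ := mem_image.1 he'
      simp only [sg_apply]
      exact hne' e he a ha
    have hmem : ∀ e ∈ E, F e ∈ A := by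
      rw [hF]
      refine pw_mem ?_ (fun e he => (hf2 e he).1)
      intro e he
      obtain ⟨a, ha, rfl⟩ := mem_image.1 he
      simp only [sg_apply]
      exact hBA (hβ.mapsTo ha)
    have hFx : F s(y, x) = β y := by
      have h1 : s(x, y) ∈ star x (nb E x) := mem_star.2 (Or.inl ⟨rfl, hy⟩)
      rw [hF, Sym2.eq_swap, pw_of_mem h1, sg_apply]
    have hFo : ∀ u ∈ nb E y, u ≠ x → F s(y, u) ∈ A ∧ F s(y, u) ∉ B := by
      intro u hu hux
      have h1 : s(y, u) ∉ star x (nb E x) := by
        rw [mem_star]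
        rintro (h | h)
        · exact hyx h.1
        · exact hux h.1
      rw [hF, pw_of_notMem h1]
      exact hf2 _ (mem_sdiff.2 ⟨mem_nb.1 hu, h1⟩)
    rw [← hF]
    have hwx : wt F E p x = p x + S (nb E x).card := by
      rw [hF, wt_pw (star_subset (Subset.refl _)), hnbx, wt_star_self hxP, sum_empty, add_zero]
      simp only [sg_apply]
      rw [sum_bijOn hβ, hBs]
    have hlt : S (nb E y).card < ∑ u ∈ nb E y, F s(y, u) := by
      by_cases hy1 : (nb E y).card = 1
      · obtain ⟨c, hc⟩ := card_eq_one.1 hy1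
        have hcx : c = x := by
          rw [hc, mem_singleton] at hxy
          exact hxy.symm
        have hyy0 : y ≠ y0 := fun h => hy01 (h ▸ hy1)
        have hβne : β y ≠ b0 := by
          intro h
          exact hyy0 (hβ.injOn hy hy0 (h.trans hy0b.symm))
        have hβy : β y ∈ B := hβ.mapsTo hy
        refine low_lt hS hinj hmem (b := b0) (u := x) (hBA hb0) ?_ hxy ?_
        · intro u hu
          rw [hc, mem_singleton] at hu
          rw [hu, hcx, hFx]
          exact hβne
        · rw [hFx]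
          exact lt_of_le_of_ne (hb0m _ hβy) hβne.symm
      · obtain ⟨v, hv, hvx⟩ : ∃ v ∈ nb E y, v ≠ x := by
          obtain ⟨u, hu, u', hu', huu, -, -⟩ := hN3 y ⟨x, hxy⟩ hy1
          by_cases h : u = x
          · exact ⟨u', hu', fun h' => huu (h.trans h'.symm)⟩
          · exact ⟨u, hu, h⟩
        obtain ⟨b, hb, hbne⟩ := exists_ne_of_card (T := B) (by omega) (β y)
        refine low_lt hS hinj hmem (b := b) (u := v) (hBA hb) ?_ hv ?_
        · intro u hu
          by_cases hux : u = x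
          · rw [hux, hFx]
            exact hbne.symm
          · intro h
            exact (hFo u hu hux).2 (h ▸ hb)
        · exact hBlt b hb _ (hFo v hv hvx).1 (hFo v hv hvx).2
    have h1 := hle y hy
    apply ne_of_lt
    rw [hwx]
    unfold wt
    linarith

end Run7.h574.LA
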