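import Mathlib

/-!
# Numerical lemmas for local antimagic labellings with vertex weights
-/

set_option autoImplicit false

namespace Run7.h574.LA

open Finset

/-! ### Bijections avoiding one value at every point -/

/-- composition of a bijection with a transposition -/
theorem bijOn_swap {α : Type*} [DecidableEq α] {P : Finset α} {Z : Finset ℤ} {g : α → ℤ}
    (hg : Set.BijOn g P Z) {a b : α} (ha : a ∈ P) (hb : b ∈ P) :
    Set.BijOn (g ∘ Equiv.swap a b) P Z := by
  refine hg.comp ?_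
  have hmap : Set.MapsTo (Equiv.swap a b) (P : Set α) (P : Set α) := by
    intro x hx
    by_cases h1 : x = a
    · subst h1; rw [Equiv.swap_apply_left]; exact hb
    by_cases h2 : x = b
    · subst h2; rw [Equiv.swap_apply_right]; exact ha
    rwa [Equiv.swap_apply_of_ne_of_ne h1 h2]
  refine ⟨hmap, (Equiv.injective _).injOn, ?_⟩
  intro x hx
  exact ⟨Equiv.swap a b x, hmap hx, Equiv.swap_apply_self a b x⟩

theorem exists_bijOn {α : Type*} [DecidableEq α] {P : Finset α} {Z : Finset ℤ}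
    (h : P.card = Z.card) : ∃ g : α → ℤ, Set.BijOn g P Z := by
  obtain ⟨e⟩ : Nonempty (P ≃ Z) := ⟨Finset.equivOfCardEq h⟩
  refine ⟨fun x => if hx : x ∈ P then (e ⟨x, hx⟩ : ℤ) else 0, ?_, ?_, ?_⟩
  · intro x hx
    have hx' : x ∈ P := hx
    simp only [hx', dif_pos]
    exact (e ⟨x, hx'⟩).2
  · intro x hx y hy hxy
    have hx' : x ∈ P := hx
    have hy' : y ∈ P := hy
    simp only [hx', hy', dif_pos] at hxy
    have := e.injective (Subtype.ext hxy)
    exact congrArg Subtype.val this
  · intro z hz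
    refine ⟨(e.symm ⟨z, hz⟩ : α), (e.symm ⟨z, hz⟩).2, ?_⟩
    simp

theorem avoid {α : Type*} [DecidableEq α] (P : Finset α) (Z : Finset ℤ) (h : P.card = Z.card)
    (c : α → ℤ) (hc : ∃ z ∈ P, ∃ z' ∈ P, c z ≠ c z') :
    ∃ g : α → ℤ, Set.BijOn g P Z ∧ ∀ z ∈ P, g z ≠ c z := by
  classical
  have key : ∀ n : ℕ, ∀ g : α → ℤ, Set.BijOn g P Z → (P.filter (fun z => g z = c z)).card = n →
      ∃ g : α → ℤ, Set.BijOn g P Z ∧ ∀ z ∈ P, g z ≠ c z := by
    intro n
    induction n using Nat.strong_induction_on with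
    | _ n ih =>
      intro g hg hn
      by_cases hbad : ∀ z ∈ P, g z ≠ c z
      · exact ⟨g, hg, hbad⟩
      push Not at hbad
      obtain ⟨z0, hz0, hgz0⟩ := hbad
      obtain ⟨z, hz, hzc⟩ : ∃ z ∈ P, c z ≠ c z0 := by
        obtain ⟨z, hz, z', hz', hzz⟩ := hc
        by_cases h1 : c z = c z0
        · exact ⟨z', hz', fun h2 => hzz (h1.trans h2.symm)⟩
        · exact ⟨z, hz, h1⟩
      have hne : z ≠ z0 := fun h => hzc (by rw [h])
      refine ih _ ?_ (g ∘ Equiv.swap z0 z) (bijOn_swap hg hz0 hz) rfl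
      rw [← hn]
      apply Finset.card_lt_card
      refine ⟨?_, ?_⟩
      · intro t ht
        rw [Finset.mem_filter] at ht ⊢
        obtain ⟨htP, htc⟩ := ht
        refine ⟨htP, ?_⟩
        by_cases h1 : t = z0
        · subst h1; exact hgz0
        by_cases h2 : t = z
        · subst h2
          exfalso
          simp only [Function.comp_apply, Equiv.swap_apply_right] at htc
          exact hzc (htc.symm.trans hgz0)
        · simpa only [Function.comp_apply, Equiv.swap_apply_of_ne_of_ne h1 h2] using htc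
      · intro hsub
        have h1 : z0 ∈ P.filter (fun z => g z = c z) := Finset.mem_filter.2 ⟨hz0, hgz0⟩
        have h2 := (Finset.mem_filter.1 (hsub h1)).2
        simp only [Function.comp_apply, Equiv.swap_apply_left] at h2
        exact hne (hg.injOn hz hz0 (h2.trans hgz0.symm))
  obtain ⟨g, hg⟩ := exists_bijOn h
  exact key _ g hg rfl

theorem sum_bijOn {α : Type*} [DecidableEq α] {P : Finset α} {Z : Finset ℤ} {g : α → ℤ}
    (hg : Set.BijOn g P Z) : ∑ z ∈ P, g z = ∑ t ∈ Z, t := by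
  refine Finset.sum_bij (fun z _ => g z) (fun z hz => hg.mapsTo hz) ?_ ?_ (fun _ _ => rfl)
  · intro a ha b hb hab
    exact hg.injOn ha hb hab
  · intro b hb
    obtain ⟨a, ha, hab⟩ := hg.surjOn hb
    exact ⟨a, ha, hab⟩

/-! ### The smallest labels -/

theorem exists_low (A : Finset ℤ) : ∃ S : ℕ → ℤ, (∀ T ⊆ A, S T.card ≤ ∑ t ∈ T, t) ∧
    ∀ k ≤ A.card, ∃ B ⊆ A, B.card = k ∧ ∑ t ∈ B, t = S k ∧ ∀ b ∈ B, ∀ a ∈ A, a ∉ B → b < a := by
  classical
  have h : ∀ k, k ≤ A.card → ∃ B ∈ A.powersetCard k, ∀ T ∈ A.powersetCard k,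
      ∑ t ∈ B, t ≤ ∑ t ∈ T, t := by
    intro k hk
    exact Finset.exists_min_image _ (fun T : Finset ℤ => ∑ t ∈ T, t)
      (Finset.powersetCard_nonempty.2 hk)
  choose! B hB hmin using h
  refine ⟨fun k => ∑ t ∈ B k, t, ?_, ?_⟩
  · intro T hT
    exact hmin _ (Finset.card_le_card hT) T (Finset.mem_powersetCard.2 ⟨hT, rfl⟩)
  · intro k hk
    obtain ⟨h1, h2⟩ := Finset.mem_powersetCard.1 (hB k hk)
    refine ⟨B k, h1, h2, rfl, ?_⟩
    intro b hb a ha hab
    by_contra hlt
    push Not at hlt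
    have hne : a ≠ b := fun h => hab (h ▸ hb)
    have hlt' : a < b := lt_of_le_of_ne hlt hne
    have hnot : a ∉ (B k).erase b := fun h => hab (Finset.mem_of_mem_erase h)
    have := hmin k hk (insert a ((B k).erase b)) (by
      rw [Finset.mem_powersetCard]
      refine ⟨?_, ?_⟩
      · intro t ht
        rcases Finset.mem_insert.1 ht with rfl | ht
        · exact ha
        · exact h1 (Finset.mem_of_mem_erase ht)
      · rw [Finset.card_insert_of_notMem hnot, Finset.card_erase_of_mem hb]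
        have : 0 < (B k).card := Finset.card_pos.2 ⟨b, hb⟩
        omega)
    rw [Finset.sum_insert hnot] at this
    have h3 : b + ∑ t ∈ (B k).erase b, t = ∑ t ∈ B k, t :=
      Finset.add_sum_erase (B k) (fun t => t) hb
    linarith

/-! ### The exchange claim -/

/-- the hypothesis to be contradicted -/
def HH (Z X : Finset ℤ) : Prop :=
  ∀ z ∈ Z, ∀ x ∈ X, (x - z ∈ Z ∧ x - z ≠ z) ∨ (z - x ∈ X ∧ z - x ≠ x)

theorem HH.symm {Z X : Finset ℤ} (h : HH Z X) : HH X Z := by
  intro x hx z hz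
  rcases h z hz x hx with h1 | h1
  · exact Or.inr h1
  · exact Or.inl h1

theorem HH.neg {Z X : Finset ℤ} (h : HH Z X) :
    HH (Z.image (fun t => -t)) (X.image (fun t => -t)) := by
  intro z hz x hx
  obtain ⟨z', hz', rfl⟩ := Finset.mem_image.1 hz
  obtain ⟨x', hx', rfl⟩ := Finset.mem_image.1 hx
  rcases h z' hz' x' hx' with ⟨h1, h2⟩ | ⟨h1, h2⟩
  · refine Or.inl ⟨Finset.mem_image.2 ⟨_, h1, by ring⟩, fun h3 => h2 (by linarith)⟩
  · refine Or.inr ⟨Finset.mem_image.2 ⟨_, h1, by ring⟩, fun h3 => h2 (by linarith)⟩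

/-- positive sets, the minimum in `X` -/
theorem no_pos_aux {Z X : Finset ℤ} (h : HH Z X) (hZ : 2 ≤ Z.card)
    {x1 : ℤ} (hx1 : x1 ∈ X) (hx1p : 0 < x1) (hmin : ∀ x ∈ X, x1 ≤ x)
    (hlt : ∀ z ∈ Z, x1 < z) : False := by
  have hZp : ∀ z ∈ Z, 0 < z := fun z hz => lt_trans hx1p (hlt z hz)
  have hne : Z.Nonempty := Finset.card_pos.1 (by omega)
  obtain ⟨z1, hz1, hz1m⟩ := Finset.exists_min_image Z (fun t => t) hne
  have hne2 : (Z.erase z1).Nonempty := Finset.card_pos.1 (by
    rw [Finset.card_erase_of_mem hz1]; omega)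
  obtain ⟨z2, hz2, hz2m⟩ := Finset.exists_min_image (Z.erase z1) (fun t => t) hne2
  have hz2Z := Finset.mem_of_mem_erase hz2
  have h12 : z1 < z2 := lt_of_le_of_ne (hz1m z2 hz2Z) (Finset.ne_of_mem_erase hz2).symm
  have hx' : z2 - x1 ∈ X := by
    rcases h z2 hz2Z x1 hx1 with ⟨h1, -⟩ | ⟨h1, -⟩
    · have := hZp _ h1
      have := hlt z2 hz2Z
      omega
    · exact h1
  have hz1p := hZp z1 hz1
  rcases h z1 hz1 _ hx' with ⟨h1, h2⟩ | ⟨h1, -⟩
  · have h4 : z2 ≤ z2 - x1 - z1 := hz2m _ (Finset.mem_erase.2 ⟨h2, h1⟩)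
    omega
  · have := hmin _ h1
    omega

theorem even_card_of_reflection (T : Finset ℤ) (c : ℤ) (h : ∀ z ∈ T, c - z ∈ T ∧ c - z ≠ z) :
    Even T.card := by
  have h1 : ∑ _z ∈ T, (1 : ZMod 2) = 0 := by
    refine Finset.sum_involution (fun z _ => c - z) ?_ ?_ ?_ ?_
    · intro a _; decide
    · intro a ha _; exact (h a ha).2
    · intro a ha; exact (h a ha).1
    · intro a ha; ring
  rw [Finset.sum_const, nsmul_eq_mul, mul_one] at h1
  exact (ZMod.natCast_eq_zero_iff_even).1 h1

/-- the key case of the exchange claim -/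
theorem ds_aux {Z X : Finset ℤ} (h : HH Z X) (hd : Disjoint Z X) (hZ : 2 ≤ Z.card)
    (hX : 2 ≤ X.card) (hZ0 : ∀ z ∈ Z, z ≠ 0) (hX0 : ∀ x ∈ X, x ≠ 0)
    {z0 x0 : ℤ} (hz0 : z0 ∈ Z) (hx0 : x0 ∈ X) (hpos : 0 < x0 - z0) (hmem : x0 - z0 ∈ Z)
    (hmax : ∀ z ∈ Z, ∀ x ∈ X, |x - z| ≤ x0 - z0) : False := by
  have hXp : ∀ x ∈ X, 0 < x := by
    intro x hx
    have h1 := (abs_le.1 (hmax _ hmem x hx)).1
    have h2 := hX0 x hx
    omega
  have hZmin : ∀ z ∈ Z, z0 ≤ z := by
    intro z hz
    have h1 := (abs_le.1 (hmax z hz x0 hx0)).2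
    omega
  have hXmax : ∀ x ∈ X, x ≤ x0 := by
    intro x hx
    have h1 := (abs_le.1 (hmax z0 hz0 x hx)).2
    omega
  have hne : X.Nonempty := ⟨x0, hx0⟩
  obtain ⟨x1, hx1, hx1m⟩ := Finset.exists_min_image X (fun t => t) hne
  rcases lt_trichotomy z0 0 with hz | hz | hz
  · -- case (ii)
    have hadd : ∀ x ∈ X, x - z0 ∈ Z := by
      intro x hx
      rcases h z0 hz0 x hx with ⟨h1, -⟩ | ⟨h1, -⟩
      · exact h1
      · have := hXp _ h1
        have := hXp x hx
        omega
    have hsub : ∀ x ∈ X, ∀ x' ∈ X, x' < x → x - x' - z0 ∈ X ∧ x - x' - z0 ≠ x' := by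
      intro x hx x' hx' hlt
      rcases h _ (hadd x hx) x' hx' with ⟨h1, -⟩ | ⟨h1, h2⟩
      · have := hZmin _ h1
        omega
      · refine ⟨by convert h1 using 1; ring, fun h3 => h2 (by omega)⟩
    have hne2 : (X.erase x1).Nonempty := Finset.card_pos.1 (by
      rw [Finset.card_erase_of_mem hx1]; omega)
    obtain ⟨x2, hx2, hx2m⟩ := Finset.exists_min_image (X.erase x1) (fun t => t) hne2
    have hx2X := Finset.mem_of_mem_erase hx2
    have h12 : x1 < x2 := lt_of_le_of_ne (hx1m x2 hx2X) (Finset.ne_of_mem_erase hx2).symm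
    have hle : -z0 ≤ x1 := by
      have h1 : x1 < x0 := lt_of_lt_of_le h12 (hXmax x2 hx2X)
      have h2 := hXmax _ (hsub x0 hx0 x1 hx1 h1).1
      omega
    have hge : x1 ≤ -z0 := by
      obtain ⟨h1, h2⟩ := hsub x2 hx2X x1 hx1 h12
      have h3 : x2 ≤ x2 - x1 - z0 := hx2m _ (Finset.mem_erase.2 ⟨h2, h1⟩)
      omega
    have hzx : z0 = -x1 := by omega
    subst hzx
    have hcard : X = {x1, x2} := by
      by_contra hX3
      have hne3 : ((X.erase x1).erase x2).Nonempty := by
        by_contra hemp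
        rw [Finset.not_nonempty_iff_eq_empty] at hemp
        apply hX3
        ext t
        constructor
        · intro ht
          by_contra hnot
          rw [Finset.mem_insert, Finset.mem_singleton] at hnot
          push Not at hnot
          have : t ∈ (X.erase x1).erase x2 :=
            Finset.mem_erase.2 ⟨hnot.2, Finset.mem_erase.2 ⟨hnot.1, ht⟩⟩
          rw [hemp] at this
          exact absurd this (Finset.notMem_empty _)
        · intro ht
          rw [Finset.mem_insert, Finset.mem_singleton] at ht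
          rcases ht with rfl | rfl
          · exact hx1
          · exact hx2X
      obtain ⟨x3, hx3, hx3m⟩ := Finset.exists_min_image ((X.erase x1).erase x2) (fun t => t) hne3
      have hx3' := Finset.mem_of_mem_erase hx3
      have hx3X := Finset.mem_of_mem_erase hx3'
      have h23 : x2 < x3 := lt_of_le_of_ne (hx2m x3 hx3') (Finset.ne_of_mem_erase hx3).symm
      obtain ⟨h1, h2⟩ := hsub x3 hx3X x2 hx2X h23
      have h4 : x3 ≤ x3 - x2 - -x1 :=
        hx3m _ (Finset.mem_erase.2 ⟨h2, Finset.mem_erase.2 ⟨by omega, h1⟩⟩)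
      omega
    have hx1p := hXp x1 hx1
    have hs : x2 + x1 ∈ Z := by
      have := hadd x2 hx2X
      simpa using this
    have hmemX : ∀ t, t ∈ X ↔ t = x1 ∨ t = x2 := by
      intro t
      rw [hcard, Finset.mem_insert, Finset.mem_singleton]
    have e1 : Even (Z.erase (x2 + x1)).card := by
      refine even_card_of_reflection _ x1 ?_
      intro z hz
      obtain ⟨hz1, hz2⟩ := Finset.mem_erase.1 hz
      rcases h z hz2 x1 hx1 with ⟨h1, h2⟩ | ⟨h1, h2⟩
      · refine ⟨Finset.mem_erase.2 ⟨?_, h1⟩, h2⟩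
        have := hZmin z hz2
        omega
      · exfalso
        rcases (hmemX _).1 h1 with h3 | h3
        · exact h2 h3
        · exact hz1 (by omega)
    have e2 : Even ((Z.erase (x2 + x1)).erase (-x1)).card := by
      refine even_card_of_reflection _ x2 ?_
      intro z hz
      obtain ⟨hz1, hz⟩ := Finset.mem_erase.1 hz
      obtain ⟨hz2, hz3⟩ := Finset.mem_erase.1 hz
      rcases h z hz3 x2 hx2X with ⟨h1, h2⟩ | ⟨h1, h2⟩
      · refine ⟨Finset.mem_erase.2 ⟨?_, Finset.mem_erase.2 ⟨?_, h1⟩⟩, h2⟩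
        · intro h3; exact hz2 (by omega)
        · intro h3; exact hz1 (by omega)
      · exfalso
        rcases (hmemX _).1 h1 with h3 | h3
        · exact hz2 (by omega)
        · exact h2 h3
    have hm : -x1 ∈ Z.erase (x2 + x1) := Finset.mem_erase.2 ⟨by omega, hz0⟩
    rw [Finset.card_erase_of_mem hm] at e2
    have hpos' : 0 < (Z.erase (x2 + x1)).card := Finset.card_pos.2 ⟨_, hm⟩
    obtain ⟨a, ha⟩ := e1
    obtain ⟨b, hb⟩ := e2
    omega
  · exact hZ0 z0 hz0 hz
  · have hne' : x1 ≠ z0 := fun h1 => Finset.disjoint_left.1 hd hz0 (h1 ▸ hx1)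
    rcases lt_or_gt_of_ne hne' with hlt | hgt
    · exact no_pos_aux h hZ hx1 (hXp x1 hx1) hx1m (fun z hz' => lt_of_lt_of_le hlt (hZmin z hz'))
    · exact no_pos_aux h.symm hX hz0 hz hZmin (fun x hx => lt_of_lt_of_le hgt (hx1m x hx))

theorem not_HH {Z X : Finset ℤ} (hd : Disjoint Z X) (hZ : 2 ≤ Z.card)
    (hX : 2 ≤ X.card) (hZ0 : ∀ z ∈ Z, z ≠ 0) (hX0 : ∀ x ∈ X, x ≠ 0) : ¬ HH Z X := by
  intro h
  have hne : (Z ×ˢ X).Nonempty :=
    (Finset.card_pos.1 (by omega)).product (Finset.card_pos.1 (by omega))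
  obtain ⟨⟨z0, x0⟩, hzx, hm⟩ := Finset.exists_max_image (Z ×ˢ X) (fun q => |q.2 - q.1|) hne
  obtain ⟨hz0, hx0⟩ := Finset.mem_product.1 hzx
  simp only at hz0 hx0
  have hmax : ∀ z ∈ Z, ∀ x ∈ X, |x - z| ≤ |x0 - z0| :=
    fun z hz x hx => hm (z, x) (Finset.mem_product.2 ⟨hz, hx⟩)
  have hne0 : x0 - z0 ≠ 0 := by
    intro h1
    exact Finset.disjoint_left.1 hd hz0 ((by omega : x0 = z0) ▸ hx0)
  have cardneg : ∀ T : Finset ℤ, (T.image (fun t => -t)).card = T.card := fun T =>
    Finset.card_image_of_injective _ neg_injective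
  have neg0 : ∀ T : Finset ℤ, (∀ t ∈ T, t ≠ 0) → ∀ t ∈ T.image (fun t => -t), t ≠ 0 := by
    intro T hT t ht
    obtain ⟨s, hs, rfl⟩ := Finset.mem_image.1 ht
    exact neg_ne_zero.2 (hT s hs)
  have hdn : ∀ T T' : Finset ℤ, Disjoint T T' →
      Disjoint (T.image (fun t => -t)) (T'.image (fun t => -t)) := by
    intro T T' hTT
    rw [Finset.disjoint_left]
    intro t ht ht'
    obtain ⟨s, hs, rfl⟩ := Finset.mem_image.1 ht
    obtain ⟨s', hs', hss⟩ := Finset.mem_image.1 ht'
    have : s' = s := by simpa using hss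
    exact Finset.disjoint_left.1 hTT hs (this ▸ hs')
  rcases h z0 hz0 x0 hx0 with ⟨h1, -⟩ | ⟨h1, -⟩
  · rcases lt_or_gt_of_ne hne0 with hlt | hgt
    · refine ds_aux (HH.neg h) (hdn _ _ hd) (by rw [cardneg]; exact hZ) (by rw [cardneg]; exact hX)
        (neg0 _ hZ0) (neg0 _ hX0) (Finset.mem_image_of_mem _ hz0) (Finset.mem_image_of_mem _ hx0)
        (by omega) ?_ ?_
      · rw [Finset.mem_image]
        exact ⟨_, h1, by ring⟩
      · intro z hz x hx
        obtain ⟨z', hz', rfl⟩ := Finset.mem_image.1 hz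
        obtain ⟨x', hx', rfl⟩ := Finset.mem_image.1 hx
        have h2 := hmax z' hz' x' hx'
        rw [abs_of_neg hlt] at h2
        rw [show -x' - -z' = -(x' - z') by ring, abs_neg]
        omega
    · refine ds_aux h hd hZ hX hZ0 hX0 hz0 hx0 hgt h1 ?_
      intro z hz x hx
      rw [← abs_of_pos hgt]
      exact hmax z hz x hx
  · have hmax' : ∀ x ∈ X, ∀ z ∈ Z, |z - x| ≤ |z0 - x0| := by
      intro x hx z hz
      rw [abs_sub_comm z x, abs_sub_comm z0 x0]
      exact hmax z hz x hx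
    have hne0' : z0 - x0 ≠ 0 := by omega
    rcases lt_or_gt_of_ne hne0' with hlt | hgt
    · refine ds_aux (HH.neg h.symm) (hdn _ _ hd.symm) (by rw [cardneg]; exact hX)
        (by rw [cardneg]; exact hZ)
        (neg0 _ hX0) (neg0 _ hZ0) (Finset.mem_image_of_mem _ hx0) (Finset.mem_image_of_mem _ hz0)
        (by omega) ?_ ?_
      · rw [Finset.mem_image]
        exact ⟨_, h1, by ring⟩
      · intro z hz x hx
        obtain ⟨z', hz', rfl⟩ := Finset.mem_image.1 hz
        obtain ⟨x', hx', rfl⟩ := Finset.mem_image.1 hx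
        have h2 := hmax' z' hz' x' hx'
        rw [abs_of_neg hlt] at h2
        rw [show -x' - -z' = -(x' - z') by ring, abs_neg]
        omega
    · refine ds_aux h.symm hd.symm hX hZ hX0 hZ0 hx0 hz0 hgt h1 ?_
      intro z hz x hx
      rw [← abs_of_pos hgt]
      exact hmax' z hz x hx

/-! ### Splitting a set of labels over a double star -/

/-- the conclusion of the splitting lemma -/
def NP (R : Finset ℤ) (e h : ℕ) (κ κ' δ : ℤ) : Prop :=
  ∃ (l : ℤ) (Z X : Finset ℤ), l ∈ R ∧ Z ⊆ R ∧ X ⊆ R ∧ l ∉ Z ∧ l ∉ X ∧ Disjoint Z X ∧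
    Z.card = e ∧ X.card = h ∧ l + ∑ t ∈ Z, t - κ ∉ Z ∧ l + ∑ t ∈ X, t - κ' ∉ X ∧
    ∑ t ∈ Z, t - ∑ t ∈ X, t ≠ δ

theorem NP.symm {R : Finset ℤ} {e h : ℕ} {κ κ' δ : ℤ} (H : NP R e h κ κ' δ) :
    NP R h e κ' κ (-δ) := by
  obtain ⟨l, Z, X, h1, h2, h3, h4, h5, h6, h7, h8, h9, h10, h11⟩ := H
  exact ⟨l, X, Z, h1, h3, h2, h5, h4, h6.symm, h8, h7, h10, h9, fun h => h11 (by linarith)⟩

theorem sum_exchange {Z : Finset ℤ} {z x : ℤ} (hz : z ∈ Z) (hx : x ∉ Z) :
    ∑ t ∈ insert x (Z.erase z), t = ∑ t ∈ Z, t + x - z := by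
  rw [Finset.sum_insert (fun h => hx (Finset.mem_of_mem_erase h))]
  have h3 : z + ∑ t ∈ Z.erase z, t = ∑ t ∈ Z, t := Finset.add_sum_erase Z (fun t => t) hz
  linarith

theorem card_exchange {Z : Finset ℤ} {z x : ℤ} (hz : z ∈ Z) (hx : x ∉ Z) :
    (insert x (Z.erase z)).card = Z.card := by
  rw [Finset.card_insert_of_notMem (fun h => hx (Finset.mem_of_mem_erase h)),
    Finset.card_erase_of_mem hz]
  have : 0 < Z.card := Finset.card_pos.2 ⟨z, hz⟩
  omega

/-- the exchange used twice below -/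
theorem np_exchange {Z0 X0 : Finset ℤ} {c κ κ' : ℤ} (hc1 : c ∉ Z0) (hc2 : c ∉ X0)
    (hd : Disjoint Z0 X0) (hZ : ∑ t ∈ Z0, t = κ) (hX : ∑ t ∈ X0, t = κ')
    {z x : ℤ} (hz : z ∈ Z0) (hx : x ∈ X0)
    (h1 : ¬ (c + x - z ∈ Z0 ∧ c + x - z ≠ z)) (h2 : ¬ (c + z - x ∈ X0 ∧ c + z - x ≠ x)) :
    NP (insert c (Z0 ∪ X0)) Z0.card X0.card κ κ' (κ - κ') := by
  have hzX : z ∉ X0 := Finset.disjoint_left.1 hd hz
  have hxZ : x ∉ Z0 := fun h => Finset.disjoint_left.1 hd h hx
  have hzx : z ≠ x := fun h => hzX (h ▸ hx)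
  have hcz : c ≠ z := fun h => hc1 (h ▸ hz)
  have hcx : c ≠ x := fun h => hc2 (h ▸ hx)
  refine ⟨c, insert x (Z0.erase z), insert z (X0.erase x), Finset.mem_insert_self _ _, ?_, ?_,
    ?_, ?_, ?_, card_exchange hz hxZ, card_exchange hx hzX, ?_, ?_, ?_⟩
  · intro t ht
    rw [Finset.mem_insert, Finset.mem_union]
    rcases Finset.mem_insert.1 ht with rfl | ht
    · exact Or.inr (Or.inr hx)
    · exact Or.inr (Or.inl (Finset.mem_of_mem_erase ht))
  · intro t ht
    rw [Finset.mem_insert, Finset.mem_union]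
    rcases Finset.mem_insert.1 ht with rfl | ht
    · exact Or.inr (Or.inl hz)
    · exact Or.inr (Or.inr (Finset.mem_of_mem_erase ht))
  · intro h
    rcases Finset.mem_insert.1 h with h | h
    · exact hcx h
    · exact hc1 (Finset.mem_of_mem_erase h)
  · intro h
    rcases Finset.mem_insert.1 h with h | h
    · exact hcz h
    · exact hc2 (Finset.mem_of_mem_erase h)
  · rw [Finset.disjoint_left]
    intro t ht ht'
    rcases Finset.mem_insert.1 ht with rfl | ht
    · rcases Finset.mem_insert.1 ht' with h | h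
      · exact hzx h.symm
      · exact Finset.ne_of_mem_erase h rfl
    · rcases Finset.mem_insert.1 ht' with rfl | h
      · exact Finset.ne_of_mem_erase ht rfl
      · exact Finset.disjoint_left.1 hd (Finset.mem_of_mem_erase ht) (Finset.mem_of_mem_erase h)
  · rw [sum_exchange hz hxZ, hZ]
    intro h
    rcases Finset.mem_insert.1 h with h | h
    · exact hcz (by linarith)
    · apply h1
      have e1 : c + (κ + x - z) - κ = c + x - z := by ring
      rw [e1] at h
      exact ⟨Finset.mem_of_mem_erase h, Finset.ne_of_mem_erase h⟩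
  · rw [sum_exchange hx hzX, hX]
    intro h
    rcases Finset.mem_insert.1 h with h | h
    · exact hcx (by linarith)
    · apply h2
      have e1 : c + (κ' + z - x) - κ' = c + z - x := by ring
      rw [e1] at h
      exact ⟨Finset.mem_of_mem_erase h, Finset.ne_of_mem_erase h⟩
  · rw [sum_exchange hx hzX, sum_exchange hz hxZ, hX, hZ]
    intro h
    exact hzx (by linarith)

theorem np_one {X0 : Finset ℤ} {c κ κ' : ℤ} (hcκ : c ≠ κ) (hc2 : c ∉ X0)
    (hκ : κ ∉ X0) (hX : ∑ t ∈ X0, t = κ') (hne : X0.Nonempty) :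
    NP (insert c ({κ} ∪ X0)) 1 X0.card κ κ' (κ - κ') := by
  by_cases hex : ∃ x ∈ X0, ¬ (c + κ - x ∈ X0 ∧ c + κ - x ≠ x)
  · obtain ⟨x, hx, hx'⟩ := hex
    have h := np_exchange (Z0 := {κ}) (X0 := X0) (c := c) (κ := κ) (κ' := κ') (z := κ) (x := x)
      (by simpa using hcκ) hc2 (by simpa using hκ) (by simp) hX (Finset.mem_singleton_self _) hx
      (fun h => h.2 (Finset.mem_singleton.1 h.1)) hx'
    simpa using h
  · push Not at hex
    obtain ⟨x2, hx2⟩ := hne
    obtain ⟨hx, hxx⟩ := hex x2 hx2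
    obtain ⟨x, hxdef⟩ : ∃ x, x = c + κ - x2 := ⟨_, rfl⟩
    rw [← hxdef] at hx hxx
    have hx2e : x2 ∈ X0.erase x := Finset.mem_erase.2 ⟨hxx.symm, hx2⟩
    have hxκ : x ≠ κ := fun h => hκ (h ▸ hx)
    have hxc : x ≠ c := fun h => hc2 (h ▸ hx)
    have hx2κ : x2 ≠ κ := fun h => hκ (h ▸ hx2)
    have hx2c : x2 ≠ c := fun h => hc2 (h ▸ hx2)
    have hκe : κ ∉ (X0.erase x).erase x2 := fun h =>
      hκ (Finset.mem_of_mem_erase (Finset.mem_of_mem_erase h))
    have hce : c ∉ insert κ ((X0.erase x).erase x2) := by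
      intro h
      rcases Finset.mem_insert.1 h with h | h
      · exact hcκ h
      · exact hc2 (Finset.mem_of_mem_erase (Finset.mem_of_mem_erase h))
    have hxn : x ∉ insert c (insert κ ((X0.erase x).erase x2)) := by
      intro h
      rcases Finset.mem_insert.1 h with h | h
      · exact hxc h
      rcases Finset.mem_insert.1 h with h | h
      · exact hxκ h
      · exact Finset.ne_of_mem_erase (Finset.mem_of_mem_erase h) rfl
    have hx2n : x2 ∉ insert c (insert κ ((X0.erase x).erase x2)) := by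
      intro h
      rcases Finset.mem_insert.1 h with h | h
      · exact hx2c h
      rcases Finset.mem_insert.1 h with h | h
      · exact hx2κ h
      · exact Finset.ne_of_mem_erase h rfl
    have hsum : ∑ t ∈ insert c (insert κ ((X0.erase x).erase x2)), t = κ' := by
      rw [Finset.sum_insert hce, Finset.sum_insert hκe]
      have h3 : x2 + ∑ t ∈ (X0.erase x).erase x2, t = ∑ t ∈ X0.erase x, t :=
        Finset.add_sum_erase _ (fun t => t) hx2e
      have h4 : x + ∑ t ∈ X0.erase x, t = ∑ t ∈ X0, t :=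
        Finset.add_sum_erase _ (fun t => t) hx
      linarith
    refine ⟨x, {x2}, insert c (insert κ ((X0.erase x).erase x2)), ?_, ?_, ?_, ?_, hxn, ?_,
      Finset.card_singleton _, ?_, ?_, ?_, ?_⟩
    · simp [hx]
    · simp [hx2]
    · intro t ht
      simp only [Finset.mem_insert, Finset.mem_union, Finset.mem_singleton, Finset.mem_erase] at ht ⊢
      tauto
    · simpa using hxx
    · rw [Finset.disjoint_singleton_left]
      exact hx2n
    · rw [Finset.card_insert_of_notMem hce, Finset.card_insert_of_notMem hκe,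
        Finset.card_erase_of_mem hx2e, Finset.card_erase_of_mem hx]
      have h1 : 0 < (X0.erase x).card := Finset.card_pos.2 ⟨_, hx2e⟩
      rw [Finset.card_erase_of_mem hx] at h1
      omega
    · rw [Finset.sum_singleton, Finset.mem_singleton]
      intro h
      exact hx2c (by linarith)
    · rw [hsum]
      have e1 : x + κ' - κ' = x := by ring
      rw [e1]
      exact hxn
    · rw [hsum, Finset.sum_singleton]
      intro h
      exact hx2κ (by linarith)

theorem np_star {Z0 X0 : Finset ℤ} {c κ κ' : ℤ} (hc1 : c ∉ Z0) (hc2 : c ∉ X0)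
    (hd : Disjoint Z0 X0) (hZ : ∑ t ∈ Z0, t = κ) (hX : ∑ t ∈ X0, t = κ')
    (hZn : Z0.Nonempty) (hXn : X0.Nonempty) :
    NP (insert c (Z0 ∪ X0)) Z0.card X0.card κ κ' (κ - κ') := by
  have hZc : 1 ≤ Z0.card := Finset.card_pos.2 hZn
  have hXc : 1 ≤ X0.card := Finset.card_pos.2 hXn
  by_cases hZ1 : Z0.card = 1
  · obtain ⟨a, ha⟩ := Finset.card_eq_one.1 hZ1
    subst ha
    rw [Finset.sum_singleton] at hZ
    subst hZ
    rw [Finset.card_singleton]
    refine np_one (by simpa using hc1) hc2 (by simpa using hd) hX hXn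
  by_cases hX1 : X0.card = 1
  · obtain ⟨a, ha⟩ := Finset.card_eq_one.1 hX1
    subst ha
    rw [Finset.sum_singleton] at hX
    subst hX
    rw [Finset.card_singleton]
    have h := (np_one (X0 := Z0) (c := c) (κ := a) (κ' := κ) (by simpa using hc2) hc1
      (by simpa using hd) hZ hZn).symm
    rw [Finset.union_comm] at h
    simpa using h
  · -- both have at least two elements
    let τ : ℤ → ℤ := fun t => t - c
    have hτ : Function.Injective τ := fun a b hab => by
      simp only [τ] at hab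
      omega
    have hnot : ¬ HH (Z0.image τ) (X0.image τ) := by
      apply not_HH
      · rw [Finset.disjoint_image hτ]
        exact hd
      · rw [Finset.card_image_of_injective _ hτ]; omega
      · rw [Finset.card_image_of_injective _ hτ]; omega
      · intro z hz
        obtain ⟨z', hz', rfl⟩ := Finset.mem_image.1 hz
        intro h0
        exact hc1 ((show z' = c by simp only [τ] at h0; omega) ▸ hz')
      · intro z hz
        obtain ⟨z', hz', rfl⟩ := Finset.mem_image.1 hz
        intro h0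
        exact hc2 ((show z' = c by simp only [τ] at h0; omega) ▸ hz')
    rw [HH] at hnot
    push Not at hnot
    obtain ⟨z', hz', x', hx', h1, h2⟩ := hnot
    obtain ⟨z, hz, rfl⟩ := Finset.mem_image.1 hz'
    obtain ⟨x, hx, rfl⟩ := Finset.mem_image.1 hx'
    refine np_exchange hc1 hc2 hd hZ hX hz hx ?_ ?_
    · rintro ⟨h3, h4⟩
      apply h4
      have := h1 (Finset.mem_image.2 ⟨_, h3, by simp only [τ]; ring⟩)
      simp only [τ] at this
      linarith
    · rintro ⟨h3, h4⟩
      apply h4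
      have := h2 (Finset.mem_image.2 ⟨_, h3, by simp only [τ]; ring⟩)
      simp only [τ] at this
      linarith

theorem exists_ne_of_card {T : Finset ℤ} (h : 2 ≤ T.card) (a : ℤ) : ∃ t ∈ T, t ≠ a := by
  by_contra hcon
  push Not at hcon
  have : T ⊆ {a} := fun t ht => Finset.mem_singleton.2 (hcon t ht)
  have := Finset.card_le_card this
  rw [Finset.card_singleton] at this
  omega

/-- splitting a set of labels over a double star -/
theorem split (R : Finset ℤ) (e h : ℕ) (he : 1 ≤ e) (hh : 1 ≤ h) (hR : R.card = e + h + 1)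
    (κ κ' δ : ℤ) : NP R e h κ κ' δ := by
  obtain ⟨c, hc⟩ : ∃ c, c = ∑ t ∈ R, t - κ - κ' := ⟨_, rfl⟩
  obtain ⟨η, hη⟩ : ∃ η, η = δ - κ + κ' := ⟨_, rfl⟩
  by_cases hA : ∃ Z ⊆ R, Z.card = e ∧ ∑ t ∈ Z, t = κ
  · obtain ⟨Z, hZR, hZc, hZs⟩ := hA
    have hRZ : (R \ Z).card = h + 1 := by
      rw [Finset.card_sdiff_of_subset hZR]; omega
    have hsumRZ : ∑ t ∈ R \ Z, t + ∑ t ∈ Z, t = ∑ t ∈ R, t := Finset.sum_sdiff hZR
    -- general step
    have step : ∀ l ∈ R \ Z, c ∉ (R \ Z).erase l → l ≠ c + η → NP R e h κ κ' δ := by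
      intro l hl hcl hlη
      obtain ⟨hlR, hlZ⟩ := Finset.mem_sdiff.1 hl
      have hsX : l + ∑ t ∈ (R \ Z).erase l, t = ∑ t ∈ R \ Z, t :=
        Finset.add_sum_erase _ (fun t => t) hl
      refine ⟨l, Z, (R \ Z).erase l, hlR, hZR, ?_, hlZ, Finset.notMem_erase _ _, ?_, hZc, ?_,
        ?_, ?_, ?_⟩
      · exact fun t ht => (Finset.mem_sdiff.1 (Finset.mem_of_mem_erase ht)).1
      · rw [Finset.disjoint_left]
        intro t ht ht'
        exact (Finset.mem_sdiff.1 (Finset.mem_of_mem_erase ht')).2 ht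
      · rw [Finset.card_erase_of_mem hl]; omega
      · rw [hZs]
        have : l + κ - κ = l := by ring
        rw [this]; exact hlZ
      · have : l + ∑ t ∈ (R \ Z).erase l, t - κ' = c := by linarith
        rw [this]; exact hcl
      · intro h3
        exact hlη (by linarith)
    by_cases hcR : c ∈ R \ Z
    · by_cases hη0 : η = 0
      · -- the star case
        obtain ⟨hcR1, hcZ⟩ := Finset.mem_sdiff.1 hcR
        have hsX : c + ∑ t ∈ (R \ Z).erase c, t = ∑ t ∈ R \ Z, t :=
          Finset.add_sum_erase _ (fun t => t) hcR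
        have hdis : Disjoint Z ((R \ Z).erase c) := by
          rw [Finset.disjoint_left]
          intro t ht ht'
          exact (Finset.mem_sdiff.1 (Finset.mem_of_mem_erase ht')).2 ht
        have hcard : ((R \ Z).erase c).card = h := by
          rw [Finset.card_erase_of_mem hcR]; omega
        have hst := np_star (κ := κ) (κ' := κ') hcZ (Finset.notMem_erase c (R \ Z)) hdis hZs
          (by linarith) (Finset.card_pos.1 (by omega)) (Finset.card_pos.1 (by omega))
        rw [hZc, hcard] at hst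
        have hR' : insert c (Z ∪ (R \ Z).erase c) = R := by
          ext t
          simp only [Finset.mem_insert, Finset.mem_union, Finset.mem_erase, Finset.mem_sdiff]
          constructor
          · rintro (h1 | h1 | h1)
            · exact h1 ▸ hcR1
            · exact hZR h1
            · exact h1.2.1
          · intro ht
            by_cases h1 : t = c
            · exact Or.inl h1
            by_cases h2 : t ∈ Z
            · exact Or.inr (Or.inl h2)
            · exact Or.inr (Or.inr ⟨h1, ht, h2⟩)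
        rw [hR'] at hst
        have hδ : δ = κ - κ' := by linarith
        rw [hδ]
        exact hst
      · exact step c hcR (Finset.notMem_erase _ _) (fun h3 => hη0 (by linarith))
    · obtain ⟨l, hl, hlne⟩ := exists_ne_of_card (T := R \ Z) (by omega) (c + η)
      exact step l hl (fun h3 => hcR (Finset.mem_of_mem_erase h3)) hlne
  · push Not at hA
    -- condition 1 is automatic
    have auto1 : ∀ (l : ℤ) (Z : Finset ℤ), l ∈ R → Z ⊆ R → l ∉ Z → Z.card = e →
        l + ∑ t ∈ Z, t - κ ∉ Z := by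
      intro l Z hl hZ hlZ hZc hmem
      refine hA (insert l (Z.erase (l + ∑ t ∈ Z, t - κ))) ?_ ?_ ?_
      · intro t ht
        rcases Finset.mem_insert.1 ht with rfl | ht
        · exact hl
        · exact hZ (Finset.mem_of_mem_erase ht)
      · rw [card_exchange hmem hlZ, hZc]
      · rw [sum_exchange hmem hlZ]; ring
    by_cases hB : ∃ X ⊆ R, X.card = h ∧ ∑ t ∈ X, t = κ'
    · obtain ⟨X, hXR, hXc, hXs⟩ := hB
      have hRX : (R \ X).card = e + 1 := by
        rw [Finset.card_sdiff_of_subset hXR]; omega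
      have hsumRX : ∑ t ∈ R \ X, t + ∑ t ∈ X, t = ∑ t ∈ R, t := Finset.sum_sdiff hXR
      obtain ⟨l, hl, hlne⟩ := exists_ne_of_card (T := R \ X) (by omega) (c - η)
      obtain ⟨hlR, hlX⟩ := Finset.mem_sdiff.1 hl
      have hsZ : l + ∑ t ∈ (R \ X).erase l, t = ∑ t ∈ R \ X, t :=
        Finset.add_sum_erase _ (fun t => t) hl
      have hZR : (R \ X).erase l ⊆ R :=
        fun t ht => (Finset.mem_sdiff.1 (Finset.mem_of_mem_erase ht)).1
      have hZc : ((R \ X).erase l).card = e := by
        rw [Finset.card_erase_of_mem hl]; omega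
      refine ⟨l, (R \ X).erase l, X, hlR, hZR, hXR, Finset.notMem_erase _ _, hlX, ?_, hZc, hXc,
        auto1 _ _ hlR hZR (Finset.notMem_erase _ _) hZc, ?_, ?_⟩
      · rw [Finset.disjoint_left]
        intro t ht
        exact (Finset.mem_sdiff.1 (Finset.mem_of_mem_erase ht)).2
      · rw [hXs]
        have : l + κ' - κ' = l := by ring
        rw [this]; exact hlX
      · intro h3
        exact hlne (by linarith)
    · push Not at hB
      have auto2 : ∀ (l : ℤ) (X : Finset ℤ), l ∈ R → X ⊆ R → l ∉ X → X.card = h →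
          l + ∑ t ∈ X, t - κ' ∉ X := by
        intro l X hl hX hlX hXc hmem
        refine hB (insert l (X.erase (l + ∑ t ∈ X, t - κ'))) ?_ ?_ ?_
        · intro t ht
          rcases Finset.mem_insert.1 ht with rfl | ht
          · exact hl
          · exact hX (Finset.mem_of_mem_erase ht)
        · rw [card_exchange hmem hlX, hXc]
        · rw [sum_exchange hmem hlX]; ring
      -- any partition, or a partition with one exchange
      obtain ⟨Z, hZR, hZc⟩ := Finset.exists_subset_card_eq (s := R) (n := e) (by omega)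
      have hRZ : (R \ Z).card = h + 1 := by
        rw [Finset.card_sdiff_of_subset hZR]; omega
      obtain ⟨l, hl⟩ : (R \ Z).Nonempty := Finset.card_pos.1 (by omega)
      obtain ⟨hlR, hlZ⟩ := Finset.mem_sdiff.1 hl
      have hXR : (R \ Z).erase l ⊆ R :=
        fun t ht => (Finset.mem_sdiff.1 (Finset.mem_of_mem_erase ht)).1
      have hXc : ((R \ Z).erase l).card = h := by
        rw [Finset.card_erase_of_mem hl]; omega
      have hdis : Disjoint Z ((R \ Z).erase l) := by
        rw [Finset.disjoint_left]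
        intro t ht ht'
        exact (Finset.mem_sdiff.1 (Finset.mem_of_mem_erase ht')).2 ht
      by_cases h3 : ∑ t ∈ Z, t - ∑ t ∈ (R \ Z).erase l, t = δ
      · obtain ⟨z, hz⟩ : Z.Nonempty := Finset.card_pos.1 (by omega)
        have hzX : z ∉ (R \ Z).erase l := Finset.disjoint_left.1 hdis hz
        have hZ'R : insert l (Z.erase z) ⊆ R := by
          intro t ht
          rcases Finset.mem_insert.1 ht with rfl | ht
          · exact hlR
          · exact hZR (Finset.mem_of_mem_erase ht)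
        have hzl : z ≠ l := fun h => hlZ (h ▸ hz)
        have hzZ' : z ∉ insert l (Z.erase z) := by
          intro h4
          rcases Finset.mem_insert.1 h4 with h4 | h4
          · exact hzl h4
          · exact Finset.ne_of_mem_erase h4 rfl
        refine ⟨z, insert l (Z.erase z), (R \ Z).erase l, hZR hz, hZ'R, hXR, hzZ', hzX, ?_,
          by rw [card_exchange hz hlZ, hZc], hXc,
          auto1 _ _ (hZR hz) hZ'R hzZ' (by rw [card_exchange hz hlZ, hZc]),
          auto2 _ _ (hZR hz) hXR hzX hXc, ?_⟩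
        · rw [Finset.disjoint_left]
          intro t ht
          rcases Finset.mem_insert.1 ht with rfl | ht
          · exact Finset.notMem_erase _ _
          · exact Finset.disjoint_left.1 hdis (Finset.mem_of_mem_erase ht)
        · rw [sum_exchange hz hlZ]
          intro h4
          exact hzl (by linarith)
      · exact ⟨l, Z, (R \ Z).erase l, hlR, hZR, hXR, hlZ, Finset.notMem_erase _ _, hdis, hZc, hXc,
          auto1 _ _ hlR hZR hlZ hZc, auto2 _ _ hlR hXR (Finset.notMem_erase _ _) hXc, h3⟩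

end Run7.h574.LA
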