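import Pool.Agent.Run7.h574.LA.Graph

/-!
# The reduction rules
-/

set_option autoImplicit false
set_option linter.unusedSectionVars false

namespace Run7.h574.LA

open Finset

variable {V : Type*} [Fintype V] [DecidableEq V]

/-- a star component can be removed -/
theorem rule_ctr {E : Finset (Sym2 V)} (hE : NoLoop E) {p : V → ℤ} (hG : Good E p)
    {A : Finset ℤ} (hA : E.card ≤ A.card) (ih : IH V E.card) {s : V} (hs : Ctr E s) :
    Sol E p A := by
  obtain ⟨P, hPdef⟩ : ∃ P, P = nb E s := ⟨_, rfl⟩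
  have hPs : P ⊆ nb E s := by rw [hPdef]
  have hsP : s ∉ P := by
    rw [hPdef, mem_nb]
    exact hE s
  have hnbP : ∀ z ∈ P, nb E z = {s} := by
    intro z hz
    obtain ⟨a, ha⟩ := card_eq_one.1 (hs.2 z (hPs hz))
    have h1 : s ∈ nb E z := mem_nb_comm.1 (hPs hz)
    rw [ha, mem_singleton] at h1
    rw [ha, h1]
  have hPn : P.Nonempty := hPdef ▸ hs.1
  have hPE : P.card ≤ E.card := by
    rw [← star_card s P]
    exact card_le_card (star_subset hPs)
  obtain ⟨R, hRA, hRc⟩ := exists_subset_card_eq (s := A) (n := P.card) (by omega)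
  -- the labels
  obtain ⟨γ, hγ, hγc⟩ : ∃ γ : V → ℤ, Set.BijOn γ P R ∧
      ∀ z ∈ P, p s + ∑ t ∈ R, t ≠ p z + γ z := by
    have hbad := hG s
    by_cases hcon : ∀ u ∈ nb E s, ∀ u' ∈ nb E s, p u = p u'
    · have h1 : (nb E s).card = 1 ∧ ∃ u ∈ nb E s, p u ≠ p s := by
        by_contra hneg
        apply hbad
        refine ⟨hs, hcon, ?_⟩
        intro h1 u hu
        by_contra h2
        exact hneg ⟨h1, u, hu, h2⟩
      obtain ⟨hc1, u, hu, hpu⟩ := h1
      rw [← hPdef] at hc1 hu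
      obtain ⟨γ, hγ⟩ := exists_bijOn (P := P) (Z := R) hRc.symm
      refine ⟨γ, hγ, ?_⟩
      intro z hz
      obtain ⟨a, ha⟩ := card_eq_one.1 hc1
      rw [ha, mem_singleton] at hz hu
      subst hz
      subst hu
      have := sum_bijOn hγ
      rw [ha, sum_singleton] at this
      rw [← this]
      intro h3
      exact hpu (by linarith)
    · push Not at hcon
      obtain ⟨u, hu, u', hu', huu⟩ := hcon
      obtain ⟨γ, hγ, hγ'⟩ := avoid P R hRc.symm (fun z => p s + ∑ t ∈ R, t - p z)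
        ⟨u, hPdef ▸ hu, u', hPdef ▸ hu', fun h => huu (by linarith)⟩
      refine ⟨γ, hγ, fun z hz h => hγ' z hz (by linarith)⟩
  have hnbs : nb (E \ star s P) s = ∅ := by
    rw [nb_sdiff_self hsP, hPdef, sdiff_self]
    rfl
  have hnbz : ∀ z ∈ P, nb (E \ star s P) z = ∅ := by
    intro z hz
    rw [nb_sdiff_mem (ne_of_mem_of_not_mem hz hsP) hz, hnbP z hz]
    simp
  have hother : ∀ v, (nb (E \ star s P) v).Nonempty → v ≠ s ∧ v ∉ P := by
    intro v hv
    constructor
    · rintro rfl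
      rw [hnbs] at hv
      exact not_nonempty_empty hv
    · intro h
      rw [hnbz v h] at hv
      exact not_nonempty_empty hv
  have hnbo : ∀ v, (nb (E \ star s P) v).Nonempty → nb (E \ star s P) v = nb E v :=
    fun v hv => nb_sdiff_other (hother v hv).1 (hother v hv).2
  have hGood : Good (E \ star s P) p := by
    intro v hv
    have h1 := hnbo v hv.1.1
    refine hG v ⟨⟨h1 ▸ hv.1.1, ?_⟩, ?_, ?_⟩
    · intro u hu
      have hu' : u ∈ nb (E \ star s P) v := h1.symm ▸ hu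
      have h2 := hnbo u ⟨v, mem_nb_comm.1 hu'⟩
      rw [← h2]
      exact hv.1.2 u hu'
    · have := hv.2.1
      rwa [h1] at this
    · have := hv.2.2
      rwa [h1] at this
  obtain ⟨f, hf1, hf2, hf3⟩ := ih.use hE (star_subset hPs)
    (card_pos.1 (by rw [star_card]; exact card_pos.2 hPn)) hGood hA
    (R := R) (by rw [star_card]; omega)
  refine glue_star (p' := p) (f := f) hPs hγ.injOn (fun z hz => hRA (hγ.mapsTo hz)) hf1
    (fun e he => (hf2 e he).1) ?_ hf3 ?_ ?_
  · intro e he z hz h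
    exact (hf2 e he).2 (h ▸ hγ.mapsTo hz)
  · intro v hv
    exact (wt_star_other (hother v hv).1 (hother v hv).2 _ _).symm
  · intro z hz
    rw [wt_pw (star_subset hPs), wt_pw (star_subset hPs), hnbs, hnbz z hz,
      wt_star_self hsP, wt_star_mem hsP hz]
    simp only [sg_apply, sum_empty, add_zero]
    rw [sum_bijOn hγ]
    exact hγc z hz

/-- if two neighbouring vertices have degree 1 they form a star component -/
theorem ctr_of_pendants {E : Finset (Sym2 V)} {a b : V} (hab : b ∈ nb E a)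
    (ha : (nb E a).card = 1) (hb : (nb E b).card = 1) : Ctr E a := by
  refine ⟨⟨b, hab⟩, ?_⟩
  obtain ⟨c, hc⟩ := card_eq_one.1 ha
  intro u hu
  rw [hc, mem_singleton] at hab hu
  rw [hu, ← hab]
  exact hb

/-- Rule E: the pendant edges at `y`, where `u` is the only neighbour of `y` of degree at least 2,
and some neighbour of `u` different from `y` has degree at least 2 -/
theorem rule_E {E : Finset (Sym2 V)} (hE : NoLoop E) {p : V → ℤ} (hN : ∀ s, ¬ Ctr E s)
    {A : Finset ℤ} (hA : E.card ≤ A.card) (ih : IH V E.card) {y u v : V} {P : Finset V}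
    (hPn : P.Nonempty) (hP1 : ∀ z ∈ P, (nb E z).card = 1) (hu1 : (nb E u).card ≠ 1)
    (hy : nb E y = insert u P) (hvu : v ∈ nb E u) (hvy : v ≠ y) (hv : (nb E v).card ≠ 1) :
    Sol E p A := by
  have hPs : P ⊆ nb E y := by rw [hy]; exact subset_insert _ _
  have huy : u ∈ nb E y := by rw [hy]; exact mem_insert_self _ _
  have huP : u ∉ P := fun h => hu1 (hP1 u h)
  have hyP : y ∉ P := fun h => hE y (mem_nb.1 (hPs h))
  have huney : u ≠ y := fun h => hE y (mem_nb.1 (h ▸ huy))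
  have hnbP : ∀ z ∈ P, nb E z = {y} := by
    intro z hz
    obtain ⟨a, ha⟩ := card_eq_one.1 (hP1 z hz)
    have h1 : y ∈ nb E z := mem_nb_comm.1 (hPs hz)
    rw [ha, mem_singleton] at h1
    rw [ha, h1]
  have hnby : nb (E \ star y P) y = {u} := by
    rw [nb_sdiff_self hyP, hy]
    ext t
    rw [mem_sdiff, mem_insert, mem_singleton]
    constructor
    · rintro ⟨h1 | h1, h2⟩
      · exact h1
      · exact absurd h1 h2
    · rintro rfl
      exact ⟨Or.inl rfl, huP⟩
  have hnbz : ∀ z ∈ P, nb (E \ star y P) z = ∅ := by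
    intro z hz
    rw [nb_sdiff_mem (ne_of_mem_of_not_mem hz hyP) hz, hnbP z hz]
    simp
  have hnbo : ∀ t, t ≠ y → t ∉ P → nb (E \ star y P) t = nb E t :=
    fun t h1 h2 => nb_sdiff_other h1 h2
  have hnoctr : ∀ s, ¬ Ctr (E \ star y P) s := by
    intro s hs
    have hsP : s ∉ P := by
      intro h
      have := hs.1
      rw [hnbz s h] at this
      exact not_nonempty_empty this
    by_cases hsy : s = y
    · subst hsy
      have := hs.2 u (by rw [hnby]; exact mem_singleton_self _)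
      rw [hnbo u huney huP] at this
      exact hu1 this
    · have h1 := hnbo s hsy hsP
      by_cases hys : y ∈ nb E s
      · -- s = u
        have hsu : s = u := by
          have : s ∈ nb E y := mem_nb_comm.1 hys
          rw [hy, mem_insert] at this
          exact this.resolve_right hsP
        subst hsu
        have hvP : v ∉ P := fun h => hv (hP1 v h)
        have h2 := hs.2 v (by rw [h1]; exact hvu)
        rw [hnbo v hvy hvP] at h2
        exact hv h2
      · apply hN s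
        refine ⟨h1 ▸ hs.1, ?_⟩
        intro t ht
        have htP : t ∉ P := by
          intro h
          have : s ∈ nb E t := mem_nb_comm.1 ht
          rw [hnbP t h, mem_singleton] at this
          exact hsy this
        have hty : t ≠ y := fun h => hys (h ▸ ht)
        have h2 := hs.2 t (by rw [h1]; exact ht)
        rwa [hnbo t hty htP] at h2
  have hPE : P.card ≤ E.card := by
    rw [← star_card y P]
    exact card_le_card (star_subset hPs)
  have hstarn : (star y P).Nonempty :=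
    card_pos.1 (by rw [star_card]; exact card_pos.2 hPn)
  -- choice of the labels
  obtain ⟨Z, hZA, hZc, hZ⟩ : ∃ Z ⊆ A, Z.card = P.card ∧ ∀ l ∈ A, l ∉ Z →
      ∃ γ : V → ℤ, Set.BijOn γ P Z ∧ ∀ z ∈ P, p y + ∑ t ∈ Z, t + l ≠ p z + γ z := by
    by_cases hcon : ∃ z ∈ P, ∃ z' ∈ P, p z ≠ p z'
    · obtain ⟨Z, hZA, hZc⟩ := exists_subset_card_eq (s := A) (n := P.card) (by omega)
      refine ⟨Z, hZA, hZc, ?_⟩
      intro l _ _
      obtain ⟨z, hz, z', hz', hzz⟩ := hcon
      obtain ⟨γ, hγ, hγ'⟩ := avoid P Z hZc.symm (fun z => p y + ∑ t ∈ Z, t + l - p z)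
        ⟨z, hz, z', hz', fun h => hzz (by linarith)⟩
      exact ⟨γ, hγ, fun z hz h => hγ' z hz (by linarith)⟩
    · push Not at hcon
      obtain ⟨z0, hz0⟩ := hPn
      by_cases hex : ∃ Z ⊆ A, Z.card = P.card ∧ ∑ t ∈ Z, t = p z0 - p y
      · obtain ⟨Z, hZA, hZc, hZs⟩ := hex
        refine ⟨Z, hZA, hZc, ?_⟩
        intro l _ hlZ
        obtain ⟨γ, hγ⟩ := exists_bijOn (P := P) (Z := Z) hZc.symm
        refine ⟨γ, hγ, ?_⟩
        intro z hz h
        have h1 : γ z ∈ Z := hγ.mapsTo hz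
        have h2 : γ z = l := by
          have := hcon z hz z0 hz0
          linarith
        exact hlZ (h2 ▸ h1)
      · push Not at hex
        obtain ⟨Z, hZA, hZc⟩ := exists_subset_card_eq (s := A) (n := P.card) (by omega)
        refine ⟨Z, hZA, hZc, ?_⟩
        intro l hlA hlZ
        obtain ⟨γ, hγ⟩ := exists_bijOn (P := P) (Z := Z) hZc.symm
        refine ⟨γ, hγ, ?_⟩
        intro z hz h
        have h1 : γ z ∈ Z := hγ.mapsTo hz
        refine hex (insert l (Z.erase (γ z))) ?_ (by rw [card_exchange h1 hlZ, hZc]) ?_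
        · intro t ht
          rcases mem_insert.1 ht with rfl | ht
          · exact hlA
          · exact hZA (mem_of_mem_erase ht)
        · rw [sum_exchange h1 hlZ]
          have := hcon z hz z0 hz0
          linarith
  obtain ⟨f, hf1, hf2, hf3⟩ := ih.use (p := Function.update p y (p y + ∑ t ∈ Z, t)) hE
    (star_subset hPs) hstarn (good_of_no_ctr hnoctr _) hA (R := Z) (by rw [star_card]; omega)
  have hyu : s(y, u) ∈ E \ star y P := by
    rw [← mem_nb, hnby]
    exact mem_singleton_self _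
  obtain ⟨γ, hγ, hγc⟩ := hZ (f s(y, u)) (hf2 _ hyu).1 (hf2 _ hyu).2
  have hsum : ∑ z ∈ P, sg y γ s(y, z) = ∑ t ∈ Z, t := by
    simp only [sg_apply]
    exact sum_bijOn hγ
  refine glue_star (p' := Function.update p y (p y + ∑ t ∈ Z, t)) (f := f) hPs hγ.injOn
    (fun z hz => hZA (hγ.mapsTo hz)) hf1 (fun e he => (hf2 e he).1) ?_ hf3 ?_ ?_
  · intro e he z hz h
    exact (hf2 e he).2 (h ▸ hγ.mapsTo hz)
  · intro t ht
    by_cases hty : t = y
    · subst hty
      rw [Function.update_self, wt_star_self hyP, hsum]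
    · have htP : t ∉ P := by
        intro h
        rw [hnbz t h] at ht
        exact not_nonempty_empty ht
      rw [Function.update_of_ne hty, wt_star_other hty htP]
  · intro z hz
    rw [wt_pw (star_subset hPs), wt_pw (star_subset hPs), hnby, hnbz z hz, sum_empty,
      wt_star_self hyP, wt_star_mem hyP hz, sg_apply, add_zero, hsum, sum_singleton]
    exact hγc z hz

theorem exists_labels (P : Finset V) (Z : Finset ℤ) (h : Z.card = P.card) (p : V → ℤ) (T : ℤ)
    {z0 : V} (hz0 : z0 ∈ P) (hT : T - p z0 ∉ Z) :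
    ∃ γ : V → ℤ, Set.BijOn γ P Z ∧ ∀ z ∈ P, T ≠ p z + γ z := by
  by_cases hcon : ∃ z ∈ P, ∃ z' ∈ P, p z ≠ p z'
  · obtain ⟨z, hz, z', hz', hzz⟩ := hcon
    obtain ⟨γ, hγ, hγ'⟩ := avoid P Z h.symm (fun z => T - p z)
      ⟨z, hz, z', hz', fun h => hzz (by linarith)⟩
    exact ⟨γ, hγ, fun z hz h => hγ' z hz (by linarith)⟩
  · push Not at hcon
    obtain ⟨γ, hγ⟩ := exists_bijOn (P := P) (Z := Z) h.symm
    refine ⟨γ, hγ, ?_⟩
    intro z hz h
    have h1 : γ z ∈ Z := hγ.mapsTo hz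
    have h2 : γ z = T - p z0 := by
      have := hcon z hz z0 hz0
      linarith
    exact hT (h2 ▸ h1)

/-- a component which is a double star can be removed -/
theorem rule_DS {E : Finset (Sym2 V)} (hE : NoLoop E) {p : V → ℤ} (hN : ∀ s, ¬ Ctr E s)
    {A : Finset ℤ} (hA : E.card ≤ A.card) (ih : IH V E.card) {y u : V} {P Q : Finset V}
    (hPn : P.Nonempty) (hQn : Q.Nonempty) (hP1 : ∀ z ∈ P, (nb E z).card = 1)
    (hQ1 : ∀ z ∈ Q, (nb E z).card = 1) (hu1 : (nb E u).card ≠ 1) (hy1 : (nb E y).card ≠ 1)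
    (hy : nb E y = insert u P) (hu : nb E u = insert y Q) : Sol E p A := by
  have huy : u ∈ nb E y := by rw [hy]; exact mem_insert_self _ _
  have huney : u ≠ y := fun h => hE y (mem_nb.1 (h ▸ huy))
  have huP : u ∉ P := fun h => hu1 (hP1 u h)
  have hyQ : y ∉ Q := fun h => hy1 (hQ1 y h)
  have hPs : P ⊆ nb E y := by rw [hy]; exact subset_insert _ _
  have hQs : Q ⊆ nb E u := by rw [hu]; exact subset_insert _ _
  have hyP : y ∉ P := fun h => hE y (mem_nb.1 (hPs h))
  have huQ : u ∉ Q := fun h => hE u (mem_nb.1 (hQs h))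
  have hyuP : y ∉ insert u P := by
    rw [mem_insert]
    rintro (h | h)
    · exact huney h.symm
    · exact hyP h
  have hnbP : ∀ z ∈ P, nb E z = {y} := by
    intro z hz
    obtain ⟨a, ha⟩ := card_eq_one.1 (hP1 z hz)
    have h1 : y ∈ nb E z := mem_nb_comm.1 (hPs hz)
    rw [ha, mem_singleton] at h1
    rw [ha, h1]
  have hnbQ : ∀ z ∈ Q, nb E z = {u} := by
    intro z hz
    obtain ⟨a, ha⟩ := card_eq_one.1 (hQ1 z hz)
    have h1 : u ∈ nb E z := mem_nb_comm.1 (hQs hz)
    rw [ha, mem_singleton] at h1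
    rw [ha, h1]
  have hPQ : ∀ z ∈ P, z ∉ Q := by
    intro z hz hz'
    have h1 := hnbP z hz
    rw [hnbQ z hz', singleton_inj] at h1
    exact huney h1
  -- the component
  obtain ⟨D1, hD1⟩ : ∃ D1, D1 = star y (insert u P) := ⟨_, rfl⟩
  obtain ⟨D2, hD2⟩ : ∃ D2, D2 = star u Q := ⟨_, rfl⟩
  have hd12 : Disjoint D1 D2 := by
    rw [disjoint_left]
    intro e he he'
    induction e using Sym2.ind with
    | _ a b =>
      rw [hD1, mem_star, mem_insert, mem_insert] at he
      rw [hD2, mem_star] at he'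
      rcases he with ⟨rfl, h⟩ | ⟨rfl, h⟩ <;> rcases he' with ⟨h1, h2⟩ | ⟨h1, h2⟩
      · exact huney h1.symm
      · exact hyQ h2
      · exact hyQ h2
      · exact huney h1.symm
  have hD1E : D1 ⊆ E := hD1 ▸ star_subset (by rw [hy])
  have hD2E : D2 ⊆ E := hD2 ▸ star_subset hQs
  have hDE : D1 ∪ D2 ⊆ E := union_subset hD1E hD2E
  have hDd : (D1 ∪ D2) \ D2 = D1 := by
    rw [union_sdiff_right, sdiff_eq_self_of_disjoint hd12]
  have hDcard : (D1 ∪ D2).card = P.card + Q.card + 1 := by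
    rw [card_union_of_disjoint hd12, hD1, hD2, star_card, star_card,
      card_insert_of_notMem huP]
    omega
  have hmemD : ∀ a b, s(a, b) ∈ D1 ∪ D2 ↔ (a = y ∧ b ∈ insert u P) ∨ (b = y ∧ a ∈ insert u P) ∨
      (a = u ∧ b ∈ Q) ∨ (b = u ∧ a ∈ Q) := by
    intro a b
    rw [mem_union, hD1, hD2, mem_star, mem_star, or_assoc]
  have empt : ∀ v, (∀ t ∈ nb E v, s(v, t) ∈ D1 ∪ D2) → nb (E \ (D1 ∪ D2)) v = ∅ := by
    intro v hv
    rw [eq_empty_iff_forall_notMem]
    intro t ht
    rw [mem_nb, mem_sdiff] at ht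
    exact ht.2 (hv t (mem_nb.2 ht.1))
  have e_y : nb (E \ (D1 ∪ D2)) y = ∅ := by
    apply empt
    intro t ht
    rw [hy] at ht
    exact (hmemD _ _).2 (Or.inl ⟨rfl, ht⟩)
  have e_u : nb (E \ (D1 ∪ D2)) u = ∅ := by
    apply empt
    intro t ht
    rw [hu, mem_insert] at ht
    rcases ht with ht | ht
    · exact (hmemD _ _).2 (Or.inr (Or.inl ⟨ht, mem_insert_self _ _⟩))
    · exact (hmemD _ _).2 (Or.inr (Or.inr (Or.inl ⟨rfl, ht⟩)))
  have e_P : ∀ z ∈ P, nb (E \ (D1 ∪ D2)) z = ∅ := by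
    intro z hz
    apply empt
    intro t ht
    rw [hnbP z hz, mem_singleton] at ht
    exact (hmemD _ _).2 (Or.inr (Or.inl ⟨ht, mem_insert_of_mem hz⟩))
  have e_Q : ∀ z ∈ Q, nb (E \ (D1 ∪ D2)) z = ∅ := by
    intro z hz
    apply empt
    intro t ht
    rw [hnbQ z hz, mem_singleton] at ht
    exact (hmemD _ _).2 (Or.inr (Or.inr (Or.inr ⟨ht, hz⟩)))
  have hoth : ∀ v, (nb (E \ (D1 ∪ D2)) v).Nonempty → nb (D1 ∪ D2) v = ∅ := by
    intro v hv
    have h1 : v ≠ y := by
      rintro rfl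
      rw [e_y] at hv
      exact not_nonempty_empty hv
    have h2 : v ≠ u := by
      rintro rfl
      rw [e_u] at hv
      exact not_nonempty_empty hv
    have h3 : v ∉ P := by
      intro h
      rw [e_P v h] at hv
      exact not_nonempty_empty hv
    have h4 : v ∉ Q := by
      intro h
      rw [e_Q v h] at hv
      exact not_nonempty_empty hv
    rw [eq_empty_iff_forall_notMem]
    intro t ht
    rw [mem_nb, hmemD, mem_insert, mem_insert] at ht
    tauto
  have hnbo : ∀ v, (nb (E \ (D1 ∪ D2)) v).Nonempty → nb (E \ (D1 ∪ D2)) v = nb E v := by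
    intro v hv
    rw [nb_union hDE v, hoth v hv, empty_union]
  have hnoctr : ∀ s, ¬ Ctr (E \ (D1 ∪ D2)) s := by
    intro s hs
    apply hN s
    refine ⟨hnbo s hs.1 ▸ hs.1, ?_⟩
    intro t ht
    have ht' : t ∈ nb (E \ (D1 ∪ D2)) s := (hnbo s hs.1).symm ▸ ht
    have h1 := hnbo t ⟨s, mem_nb_comm.1 ht'⟩
    rw [← h1]
    exact hs.2 t ht'
  -- the labels
  have hDA : P.card + Q.card + 1 ≤ A.card := by
    have := card_le_card hDE
    omega
  obtain ⟨R, hRA, hRc⟩ := exists_subset_card_eq (s := A) (n := P.card + Q.card + 1) hDA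
  obtain ⟨z0, hz0⟩ := hPn
  obtain ⟨z1, hz1⟩ := hQn
  obtain ⟨l, Z, X, hlR, hZR, hXR, hlZ, hlX, hZX, hZc, hXc, hcZ, hcX, hcne⟩ :=
    split R P.card Q.card (card_pos.2 ⟨z0, hz0⟩) (card_pos.2 ⟨z1, hz1⟩) hRc
      (p z0 - p y) (p z1 - p u) (p u - p y)
  obtain ⟨γ0, hγ0, hγc⟩ := exists_labels P Z hZc p (p y + (l + ∑ t ∈ Z, t)) hz0
    (fun h => hcZ (by convert h using 1; ring))
  obtain ⟨γ', hγ', hγc'⟩ := exists_labels Q X hXc p (p u + (l + ∑ t ∈ X, t)) hz1
    (fun h => hcX (by convert h using 1; ring))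
  obtain ⟨γ, hγdef⟩ : ∃ γ : V → ℤ, γ = Function.update γ0 u l := ⟨_, rfl⟩
  have hγu : γ u = l := by rw [hγdef, Function.update_self]
  have hγP : ∀ z ∈ P, γ z = γ0 z := by
    intro z hz
    rw [hγdef, Function.update_of_ne (ne_of_mem_of_not_mem hz huP)]
  have hγinj : Set.InjOn γ (insert u P : Finset V) := by
    intro a ha b hb hab
    rw [mem_coe, mem_insert] at ha hb
    rcases ha with rfl | ha <;> rcases hb with rfl | hb
    · rfl
    · rw [hγu, hγP b hb] at hab
      exact absurd (hab ▸ hγ0.mapsTo hb : l ∈ (Z : Set ℤ)) hlZ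
    · rw [hγu, hγP a ha] at hab
      exact absurd (hab ▸ hγ0.mapsTo ha : l ∈ (Z : Set ℤ)) hlZ
    · rw [hγP a ha, hγP b hb] at hab
      exact hγ0.injOn ha hb hab
  have hγmem : ∀ z ∈ insert u P, γ z ∈ R ∧ γ z ∉ X := by
    intro z hz
    rw [mem_insert] at hz
    rcases hz with rfl | hz
    · rw [hγu]; exact ⟨hlR, hlX⟩
    · rw [hγP z hz]
      exact ⟨hZR (hγ0.mapsTo hz), disjoint_left.1 hZX (hγ0.mapsTo hz)⟩
  have hsumP : ∑ z ∈ insert u P, γ z = l + ∑ t ∈ Z, t := by
    rw [sum_insert huP, hγu, sum_congr rfl hγP, sum_bijOn hγ0]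
  obtain ⟨g, hgdef⟩ : ∃ g, g = pw D2 (sg u γ') (sg y γ) := ⟨_, rfl⟩
  have hginj : Set.InjOn g (D1 ∪ D2 : Finset (Sym2 V)) := by
    rw [hgdef]
    refine pw_injOn (E := D1 ∪ D2) (by rw [hD2]; exact sg_injOn hγ'.injOn)
      (by rw [hDd, hD1]; exact sg_injOn hγinj) ?_
    intro e he e' he'
    rw [hDd, hD1] at he
    rw [hD2] at he'
    obtain ⟨a, ha, rfl⟩ := mem_image.1 he
    obtain ⟨b, hb, rfl⟩ := mem_image.1 he'
    simp only [sg_apply]
    intro h
    exact (hγmem a ha).2 (h ▸ hγ'.mapsTo hb)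
  have hgR : ∀ e ∈ D1 ∪ D2, g e ∈ R := by
    rw [hgdef]
    refine pw_mem (E := D1 ∪ D2) ?_ ?_
    · intro e he
      rw [hD2] at he
      obtain ⟨b, hb, rfl⟩ := mem_image.1 he
      simp only [sg_apply]
      exact hXR (hγ'.mapsTo hb)
    · intro e he
      rw [hDd, hD1] at he
      obtain ⟨a, ha, rfl⟩ := mem_image.1 he
      simp only [sg_apply]
      exact (hγmem a ha).1
  obtain ⟨f, hf1, hf2, hf3⟩ := ih.use (p := p) hE hDE (card_pos.1 (by omega))
    (good_of_no_ctr hnoctr _) hA (R := R) (by omega)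
  -- the weights on the component
  have hW : ∀ v, nb (E \ (D1 ∪ D2)) v = ∅ → wt (pw (D1 ∪ D2) g f) E p v =
      wt (sg u γ') (star u Q) p v + ∑ t ∈ nb (star y (insert u P)) v, sg y γ s(v, t) := by
    intro v hv
    rw [wt_pw hDE, hv, sum_empty, add_zero, hgdef, wt_pw subset_union_right, hDd, ← hD1, ← hD2]
  have hWy : wt (pw (D1 ∪ D2) g f) E p y = p y + (l + ∑ t ∈ Z, t) := by
    rw [hW y e_y, wt_star_other huney.symm hyQ, nb_star_self hyuP]
    simp only [sg_apply]
    rw [hsumP]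
  have hWu : wt (pw (D1 ∪ D2) g f) E p u = p u + (l + ∑ t ∈ X, t) := by
    rw [hW u e_u, wt_star_self huQ, nb_star_mem hyuP (mem_insert_self _ _), sum_singleton,
      Sym2.eq_swap]
    simp only [sg_apply]
    rw [hγu, sum_bijOn hγ']
    ring
  have hWP : ∀ z ∈ P, wt (pw (D1 ∪ D2) g f) E p z = p z + γ0 z := by
    intro z hz
    rw [hW z (e_P z hz), wt_star_other (ne_of_mem_of_not_mem hz huP) (hPQ z hz),
      nb_star_mem hyuP (mem_insert_of_mem hz), sum_singleton, Sym2.eq_swap, sg_apply, hγP z hz]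
  have hWQ : ∀ z ∈ Q, wt (pw (D1 ∪ D2) g f) E p z = p z + γ' z := by
    intro z hz
    rw [hW z (e_Q z hz), wt_star_mem huQ hz, nb_star_other (ne_of_mem_of_not_mem hz hyQ) ?_,
      sum_empty, add_zero, sg_apply]
    rw [mem_insert]
    rintro (h | h)
    · exact huQ (h ▸ hz)
    · exact hPQ z h hz
  have hyu : wt (pw (D1 ∪ D2) g f) E p y ≠ wt (pw (D1 ∪ D2) g f) E p u := by
    rw [hWy, hWu]
    intro h
    exact hcne (by linarith)
  have hyP' : ∀ z ∈ P, wt (pw (D1 ∪ D2) g f) E p y ≠ wt (pw (D1 ∪ D2) g f) E p z := by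
    intro z hz
    rw [hWy, hWP z hz]
    exact hγc z hz
  have huQ' : ∀ z ∈ Q, wt (pw (D1 ∪ D2) g f) E p u ≠ wt (pw (D1 ∪ D2) g f) E p z := by
    intro z hz
    rw [hWu, hWQ z hz]
    exact hγc' z hz
  refine glue (p' := p) hDE hginj (fun e he => hRA (hgR e he)) hf1 (fun e he => (hf2 e he).1) ?_
    hf3 ?_ ?_
  · intro e he e' he' h
    exact (hf2 e he).2 (h ▸ hgR e' he')
  · intro v hv
    unfold wt
    rw [hoth v hv, sum_empty, add_zero]
  · intro a b hab
    rw [hmemD, mem_insert, mem_insert] at hab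
    rcases hab with ⟨rfl, h | h⟩ | ⟨rfl, h | h⟩ | ⟨rfl, h⟩ | ⟨rfl, h⟩
    · rw [h]; exact hyu
    · exact hyP' b h
    · rw [h]; exact hyu.symm
    · exact (hyP' a h).symm
    · exact huQ' b h
    · exact (huQ' a h).symm

end Run7.h574.LA
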